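import Pool.Agent.W5h42.KF.Defs

set_option autoImplicit false

/-! Names for the integrals. -/

open MeasureTheory Set

namespace Pool.Agent.W5h42.KF

/-- the integral of `|u|²` over the times in `(0, T)` and the layer `|x_i| < δ`, `a < s < b` -/
noncomputable def sqInt (n : ℕ) (T δ a b : ℝ) (u : ST n → Z n) : ℝ :=
  ∫ p in dom n T δ a b, dot (u p) (u p)

/-- the integral of `u_y²` over the times in `(0, T)` and the layer `|x_i| < δ`, `a < s < b` -/
noncomputable def sqIntY (n : ℕ) (T δ a b : ℝ) (u : ST n → Z n) : ℝ :=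
  ∫ p in dom n T δ a b, (u p).2 ^ 2

end Pool.Agent.W5h42.KF
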