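import Pool.Agent.W5h42.KF.Rot

set_option autoImplicit false

/-! Trajectories with bounded vorticity. -/

open MeasureTheory Set

namespace Pool.Agent.W5h42.KF

variable {n : ℕ}

theorem hardy_norm {γ : (Fin n → ℝ) → ℝ} {δ h T : ℝ} {u g : ST n → Z n} {u0 uT : Z n → Z n}
    (H : WeakTraj n γ δ h T u g u0 uT) (hh : 0 < h) :
    ∫ p in dom n T δ 0 h, ‖u p‖ ≤ h * ∫ p in dom n T δ 0 h, ‖g p‖ := by
  have h1 := hardyN H hh (N := fun a => ‖a‖) zero_le_one continuous_norm
    (fun a => norm_nonneg _)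
    (fun a => by
      have k1 := norm_sq_le a
      nlinarith [sq_nonneg (‖a‖ - 1)]) (fun f y hy hyh hf h2 => by
      rw [one_mul]
      exact norm_integral_le_integral_norm f)
  rw [mul_one] at h1
  exact h1

/-- the norm of the rotation tensor is a bound for its block -/
theorem LambTraj.norm_block {γ : (Fin n → ℝ) → ℝ} {δ h T : ℝ} {u : ST n → Z n}
    {W : ST n → Z n →L[ℝ] Z n} {k : ST n → ℝ} {u0 uT : Z n → Z n}
    (L : LambTraj n γ δ h T u W k u0 uT) :
    LambTraj n γ δ h T u W (fun p => ‖W p‖) u0 uT where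
  rot := L.rot
  int_ku := L.rot.int_Wu
  block := by
    refine Filter.Eventually.of_forall fun p _ v => ?_
    have h1 : ‖((v, 0) : Z n)‖ = ‖v‖ := by
      rw [Prod.norm_def]
      simp
    calc ‖(W p (v, 0)).1‖ ≤ ‖W p (v, 0)‖ := norm_fst_le _
      _ ≤ ‖W p‖ * ‖((v, 0) : Z n)‖ := (W p).le_opNorm _
      _ = ‖W p‖ * ‖v‖ := by rw [h1]
  momentum := L.momentum

theorem viscous_le {γ : (Fin n → ℝ) → ℝ} {δ h T K : ℝ} (hT : 0 < T) (hδ : 0 < δ) (hh : 0 < h)
    (hK : 0 ≤ K) {u : ST n → Z n} {W : ST n → Z n →L[ℝ] Z n} {k : ST n → ℝ} {u0 uT : Z n → Z n}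
    (_L : LambTraj n γ δ h T u W k u0 uT)
    (hb : ∀ᵐ p : ST n, p ∈ dom n T δ (h / 2) h → ‖W p‖ ≤ K) :
    viscous n δ h T W ≤ K * (2 ^ n * (T * δ ^ n / h)) := by
  have hms : ∀ᵐ p ∂(volume.restrict (dom n T δ (h / 2) h)), p ∈ dom n T δ (h / 2) h :=
    ae_restrict_mem (measurableSet_dom T δ _ _)
  have hbd : ∀ᵐ p ∂(volume.restrict (dom n T δ (h / 2) h)), p ∈ dom n T δ (h / 2) h →
      ‖W p‖ ≤ K := ae_restrict_of_ae hb
  have jc : IntegrableOn (fun _ : ST n => K / h ^ 2) (dom n T δ (h / 2) h) :=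
    integrableOn_const (volume_dom_lt T δ _ _).ne
  have k1 : viscous n δ h T W ≤ ∫ _ in dom n T δ (h / 2) h, K / h ^ 2 := by
    unfold viscous
    apply integral_mono_of_nonneg _ jc
    · filter_upwards [hms, hbd] with p hp1 hp2
      have hp3 := hp2 hp1
      gcongr
    · refine Filter.Eventually.of_forall fun p => ?_
      simp only [Pi.zero_apply]
      positivity
  refine k1.trans ?_
  rw [setIntegral_const, volume_dom hT.le hδ (by linarith), smul_eq_mul]
  have t3 : T * (2 * δ) ^ n * (h - h / 2) * (K / h ^ 2) =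
      K * (2 ^ n / 2 * (T * δ ^ n / h)) := by
    rw [mul_pow]
    field_simp
    ring
  rw [t3]
  have h0 : 0 ≤ T * δ ^ n / h := by positivity
  have h1 : (2 : ℝ) ^ n / 2 ≤ 2 ^ n := by
    have : (0 : ℝ) ≤ 2 ^ n := by positivity
    linarith
  gcongr

/-- bounded vorticity, no block (planar flows) -/
theorem planar (n m : ℕ) : ∃ c : ℝ, 0 < c ∧ ∀ (i : Fin n) {Γ : (Fin n → ℝ) → ℝ}
    {δ h T a K : ℝ}, Profile m Γ → 0 < T → 0 < h → h ≤ δ → 0 < a → 0 ≤ K →
    ∀ {u g : ST n → Z n} {W : ST n → Z n →L[ℝ] Z n} {u0 : Z n → Z n},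
    WeakTraj n (wall Γ δ h) δ h T u g u0 0 → LambTraj n (wall Γ δ h) δ h T u W 0 u0 0 →
    VortGE (wall Γ δ h) δ h i a u0 →
    (∀ᵐ p : ST n, p ∈ dom n T δ (h / 2) h → ‖W p‖ ≤ K) →
    c * (a * h * δ ^ n) ≤ K * ((1 + T / h ^ 2) ^ m *
      (totalY n δ h T g + h / δ * total n δ h T g) + (T / h ^ 2) ^ m * (T * δ ^ n / h)) := by
  obtain ⟨c, hc, h1⟩ := vort n m
  refine ⟨c / 2 ^ n, by positivity, ?_⟩
  intro i Γ δ h T a K hΓ hT hh hhδ ha hK u g W u0 H L hv hb
  have hδ : 0 < δ := hh.trans_le hhδ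
  have k0 := h1 i hΓ hT hh hhδ ha L hv
  have kv := viscous_le hT hδ hh hK L hb
  have hsub : dom n T δ (h / 2) h ⊆ dom n T δ 0 h := dom_mono (by positivity) le_rfl
  have hms : ∀ᵐ p ∂(volume.restrict (dom n T δ (h / 2) h)), p ∈ dom n T δ (h / 2) h :=
    ae_restrict_mem (measurableSet_dom T δ _ _)
  have hbd : ∀ᵐ p ∂(volume.restrict (dom n T δ (h / 2) h)), p ∈ dom n T δ (h / 2) h →
      ‖W p‖ ≤ K := ae_restrict_of_ae hb
  have ju := L.rot.int_u.mono_set hsub
  have iu2 : IntegrableOn (fun p => |(u p).2|) (dom n T δ 0 h) := by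
    refine Integrable.mono' L.rot.int_u
      ((continuous_snd.comp_aestronglyMeasurable L.rot.meas_u).norm)
      (Filter.Eventually.of_forall fun p => ?_)
    rw [Real.norm_eq_abs, abs_abs]
    exact norm_snd_le (u p)
  have ju2 := iu2.mono_set hsub
  have jR : IntegrableOn (fun p => K * (|(u p).2| / h + ‖u p‖ / δ))
      (dom n T δ (h / 2) h) :=
    ((ju2.div_const h).add (ju.div_const δ)).const_mul K
  have k1 : transport n δ h T u W 0 ≤
      ∫ p in dom n T δ (h / 2) h, K * (|(u p).2| / h + ‖u p‖ / δ) := by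
    unfold transport
    apply integral_mono_of_nonneg _ jR
    · filter_upwards [hms, hbd] with p hp1 hp2
      have hp3 := hp2 hp1
      simp only [Pi.zero_apply, zero_mul, add_zero]
      have e1 : K * (|(u p).2| / h + ‖u p‖ / δ) = K * |(u p).2| / h + K * ‖u p‖ / δ := by ring
      rw [e1]
      gcongr
    · refine Filter.Eventually.of_forall fun p => ?_
      simp only [Pi.zero_apply, zero_mul, add_zero]
      positivity
  have k2 : ∫ p in dom n T δ (h / 2) h, K * (|(u p).2| / h + ‖u p‖ / δ) =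
      K * ((∫ p in dom n T δ (h / 2) h, |(u p).2|) / h +
        (∫ p in dom n T δ (h / 2) h, ‖u p‖) / δ) := by
    have j1 := ju2.div_const h
    have j2 := ju.div_const δ
    have q2 := integral_add j1 j2
    rw [integral_const_mul, q2, integral_div, integral_div]
  have k3 : ∫ p in dom n T δ (h / 2) h, |(u p).2| ≤ h * totalY n δ h T g := by
    refine le_trans ?_ (hardy_one H hh)
    exact setIntegral_mono_set iu2 (Filter.Eventually.of_forall fun p => abs_nonneg _)
      (Filter.Eventually.of_forall hsub)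
  have k4 : ∫ p in dom n T δ (h / 2) h, ‖u p‖ ≤ h * total n δ h T g := by
    refine le_trans ?_ (hardy_norm H hh)
    exact setIntegral_mono_set L.rot.int_u (Filter.Eventually.of_forall fun p => norm_nonneg _)
      (Filter.Eventually.of_forall hsub)
  rw [k2] at k1
  set A := totalY n δ h T g with hA
  set B := total n δ h T g with hB
  set a1 := ∫ p in dom n T δ (h / 2) h, |(u p).2| with ha1
  set a2 := ∫ p in dom n T δ (h / 2) h, ‖u p‖ with ha2
  have hA0 : 0 ≤ A := integral_nonneg fun p => abs_nonneg _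
  have hB0 : 0 ≤ B := integral_nonneg fun p => norm_nonneg _
  have t1 : a1 / h ≤ A := by
    rw [div_le_iff₀ hh]
    linarith
  have t2 : a2 / δ ≤ h / δ * B := by
    rw [div_le_iff₀ hδ]
    calc a2 ≤ h * B := k4
      _ = h / δ * B * δ := by field_simp
  set x : ℝ := T / h ^ 2 with hx
  have hx0 : 0 ≤ x := by positivity
  have e2 : (1 : ℝ) ≤ 2 ^ n := one_le_pow₀ (by norm_num)
  have hR0 : 0 ≤ T * δ ^ n / h := by positivity
  have k5 : c * (a * h * δ ^ n) ≤
      2 ^ n * (K * ((1 + x) ^ m * (A + h / δ * B) + x ^ m * (T * δ ^ n / h))) := by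
    refine k0.trans ?_
    have q0 : 0 ≤ h / δ * B := by positivity
    have q1 : transport n δ h T u W 0 ≤ 2 ^ n * (K * (A + h / δ * B)) := by
      refine k1.trans ?_
      have q3 : K * (a1 / h + a2 / δ) ≤ K * (A + h / δ * B) := by gcongr
      have q4 : 0 ≤ K * (A + h / δ * B) := by positivity
      nlinarith
    calc (1 + x) ^ m * transport n δ h T u W 0 + x ^ m * viscous n δ h T W ≤
          (1 + x) ^ m * (2 ^ n * (K * (A + h / δ * B))) +
          x ^ m * (K * (2 ^ n * (T * δ ^ n / h))) := by gcongr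
      _ = _ := by ring
  have e8 : c / 2 ^ n * (a * h * δ ^ n) = (c * (a * h * δ ^ n)) / 2 ^ n := by
    field_simp
  rw [e8, div_le_iff₀ (by positivity)]
  linarith

/-- bounded vorticity, all dimensions -/
theorem bounded (n m : ℕ) : ∃ c : ℝ, 0 < c ∧ ∀ (i : Fin n) {Γ : (Fin n → ℝ) → ℝ}
    {δ h T a K : ℝ}, Profile m Γ → 0 < T → 0 < h → h ≤ δ → 0 < a → 0 ≤ K →
    ∀ {u g : ST n → Z n} {W : ST n → Z n →L[ℝ] Z n} {k : ST n → ℝ} {u0 : Z n → Z n},
    WeakTraj n (wall Γ δ h) δ h T u g u0 0 → LambTraj n (wall Γ δ h) δ h T u W k u0 0 →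
    VortGE (wall Γ δ h) δ h i a u0 →
    (∀ᵐ p : ST n, p ∈ dom n T δ (h / 2) h → ‖W p‖ ≤ K) →
    c * (a * h * δ ^ n) ≤ K * ((1 + T / h ^ 2) ^ m * total n δ h T g +
      (T / h ^ 2) ^ m * (T * δ ^ n / h)) := by
  obtain ⟨c, hc, h1⟩ := vort n m
  refine ⟨c / (3 * 2 ^ n), by positivity, ?_⟩
  intro i Γ δ h T a K hΓ hT hh hhδ ha hK u g W k u0 H L hv hb
  have hδ : 0 < δ := hh.trans_le hhδ
  have k0 := h1 i hΓ hT hh hhδ ha L.norm_block hv
  have kv := viscous_le hT hδ hh hK L hb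
  have hsub : dom n T δ (h / 2) h ⊆ dom n T δ 0 h := dom_mono (by positivity) le_rfl
  have hms : ∀ᵐ p ∂(volume.restrict (dom n T δ (h / 2) h)), p ∈ dom n T δ (h / 2) h :=
    ae_restrict_mem (measurableSet_dom T δ _ _)
  have hbd : ∀ᵐ p ∂(volume.restrict (dom n T δ (h / 2) h)), p ∈ dom n T δ (h / 2) h →
      ‖W p‖ ≤ K := ae_restrict_of_ae hb
  have ju := L.rot.int_u.mono_set hsub
  have jR : IntegrableOn (fun p => K * (3 * (‖u p‖ / h))) (dom n T δ (h / 2) h) :=
    ((ju.div_const h).const_mul 3).const_mul K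
  have k1 : transport n δ h T u W (fun p => ‖W p‖) ≤
      ∫ p in dom n T δ (h / 2) h, K * (3 * (‖u p‖ / h)) := by
    unfold transport
    apply integral_mono_of_nonneg _ jR
    · filter_upwards [hms, hbd] with p hp1 hp2
      have hp3 := hp2 hp1
      have e0 : |(u p).2| ≤ ‖u p‖ := norm_snd_le (u p)
      have e1 : K * (3 * (‖u p‖ / h)) =
          (K * ‖u p‖ + K * ‖u p‖) / h + K * ‖u p‖ / h := by ring
      rw [e1]
      gcongr
    · refine Filter.Eventually.of_forall fun p => ?_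
      simp only [Pi.zero_apply]
      positivity
  have k2 : ∫ p in dom n T δ (h / 2) h, K * (3 * (‖u p‖ / h)) =
      K * (3 * ((∫ p in dom n T δ (h / 2) h, ‖u p‖) / h)) := by
    rw [integral_const_mul, integral_const_mul, integral_div]
  have k4 : ∫ p in dom n T δ (h / 2) h, ‖u p‖ ≤ h * total n δ h T g := by
    refine le_trans ?_ (hardy_norm H hh)
    exact setIntegral_mono_set L.rot.int_u (Filter.Eventually.of_forall fun p => norm_nonneg _)
      (Filter.Eventually.of_forall hsub)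
  rw [k2] at k1
  set B := total n δ h T g with hB
  set a2 := ∫ p in dom n T δ (h / 2) h, ‖u p‖ with ha2
  have hB0 : 0 ≤ B := integral_nonneg fun p => norm_nonneg _
  have t2 : a2 / h ≤ B := by
    rw [div_le_iff₀ hh]
    linarith
  set x : ℝ := T / h ^ 2 with hx
  have hx0 : 0 ≤ x := by positivity
  have e2 : (1 : ℝ) ≤ 2 ^ n := one_le_pow₀ (by norm_num)
  have hR0 : 0 ≤ T * δ ^ n / h := by positivity
  have k5 : c * (a * h * δ ^ n) ≤
      3 * 2 ^ n * (K * ((1 + x) ^ m * B + x ^ m * (T * δ ^ n / h))) := by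
    refine k0.trans ?_
    have q1 : transport n δ h T u W (fun p => ‖W p‖) ≤ 3 * 2 ^ n * (K * B) := by
      refine k1.trans ?_
      have q3 : K * (3 * (a2 / h)) ≤ K * (3 * B) := by gcongr
      have q4 : 0 ≤ K * B := by positivity
      nlinarith
    have q2 : viscous n δ h T W ≤ 3 * 2 ^ n * (K * (T * δ ^ n / h)) := by
      refine kv.trans ?_
      have q4 : 0 ≤ 2 ^ n * (K * (T * δ ^ n / h)) := by positivity
      linarith
    calc (1 + x) ^ m * transport n δ h T u W (fun p => ‖W p‖) + x ^ m * viscous n δ h T W ≤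
          (1 + x) ^ m * (3 * 2 ^ n * (K * B)) +
          x ^ m * (3 * 2 ^ n * (K * (T * δ ^ n / h))) := by gcongr
      _ = _ := by ring
  have e8 : c / (3 * 2 ^ n) * (a * h * δ ^ n) = (c * (a * h * δ ^ n)) / (3 * 2 ^ n) := by
    field_simp
  rw [e8, div_le_iff₀ (by positivity)]
  linarith

end Pool.Agent.W5h42.KF
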