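import Pool.Agent.W5h42.KF.Hardy
import Pool.Agent.W5h42.KF.Test

set_option autoImplicit false

/-! The weak formulation tested with a finite sum of fields. -/

open MeasureTheory Set

namespace Pool.Agent.W5h42.KF

variable {n : ℕ}

theorem abs_dot_le (a b : Z n) : |dot a b| ≤ (n + 1) * (‖a‖ * ‖b‖) := by
  unfold dot
  have h1 : ∀ i : Fin n, |a.1 i * b.1 i| ≤ ‖a‖ * ‖b‖ := by
    intro i
    rw [abs_mul]
    have h2 : |a.1 i| ≤ ‖a‖ := (norm_le_pi_norm a.1 i).trans (norm_fst_le a)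
    have h3 : |b.1 i| ≤ ‖b‖ := (norm_le_pi_norm b.1 i).trans (norm_fst_le b)
    exact mul_le_mul h2 h3 (abs_nonneg _) (norm_nonneg _)
  have h4 : |a.2 * b.2| ≤ ‖a‖ * ‖b‖ := by
    rw [abs_mul]
    exact mul_le_mul (norm_snd_le a) (norm_snd_le b) (abs_nonneg _) (norm_nonneg _)
  calc |∑ i, a.1 i * b.1 i + a.2 * b.2| ≤ |∑ i, a.1 i * b.1 i| + |a.2 * b.2| := abs_add_le _ _
    _ ≤ ∑ i, |a.1 i * b.1 i| + |a.2 * b.2| := by
        gcongr
        exact Finset.abs_sum_le_sum_abs _ _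
    _ ≤ ∑ _i : Fin n, ‖a‖ * ‖b‖ + ‖a‖ * ‖b‖ := by
        gcongr with i
        exact h1 i
    _ = (n + 1) * (‖a‖ * ‖b‖) := by
        rw [Finset.sum_const, Finset.card_univ, Fintype.card_fin, nsmul_eq_mul]
        ring

/-- the Cauchy-Schwarz inequality -/
theorem cs2 {α : Type} [MeasurableSpace α] {μ : Measure α} {f g : α → ℝ}
    (hf : Integrable (fun x => f x ^ 2) μ) (hg : Integrable (fun x => g x ^ 2) μ)
    (hfg : Integrable (fun x => f x * g x) μ) :
    ∫ x, f x * g x ∂μ ≤ Real.sqrt ((∫ x, f x ^ 2 ∂μ) * ∫ x, g x ^ 2 ∂μ) := by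
  set F := ∫ x, f x ^ 2 ∂μ with hF
  set G := ∫ x, g x ^ 2 ∂μ with hG
  set X := ∫ x, f x * g x ∂μ with hX
  have h1 : ∀ t : ℝ, 0 ≤ F * (t * t) + (-2 * X) * t + G := by
    intro t
    have h2 : ∫ x, (t * f x - g x) ^ 2 ∂μ = F * (t * t) + (-2 * X) * t + G := by
      have e1 : ∀ x, (t * f x - g x) ^ 2 = t * t * f x ^ 2 - 2 * t * (f x * g x) + g x ^ 2 :=
        fun x => by ring
      simp only [e1]
      have j1 : Integrable (fun x => t * t * f x ^ 2) μ := hf.const_mul _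
      have j2 : Integrable (fun x => 2 * t * (f x * g x)) μ := hfg.const_mul _
      have j3 : Integrable (fun x => t * t * f x ^ 2 - 2 * t * (f x * g x)) μ := j1.sub j2
      rw [integral_add j3 hg, integral_sub j1 j2, integral_const_mul, integral_const_mul]
      ring
    rw [← h2]
    exact integral_nonneg fun x => sq_nonneg _
  have h3 := discrim_le_zero h1
  unfold discrim at h3
  apply Real.le_sqrt_of_sq_le
  nlinarith

/-- the bound of an integral over the layer -/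
theorem int_bound {γ : (Fin n → ℝ) → ℝ} {δ h T : ℝ} {u g : ST n → Z n} {u0 uT : Z n → Z n}
    (H : WeakTraj n γ δ h T u g u0 uT) (hT : 0 ≤ T) (hδ : 0 < δ) {a A1 A2 B : ℝ} (ha : 0 ≤ a)
    (hah : a ≤ h) (hA1 : 0 ≤ A1) (hB : 0 ≤ B) {F : ST n → ℝ}
    (h0 : ∀ p ∈ dom n T δ 0 h \ dom n T δ a h, F p = 0)
    (hb : ∀ p ∈ dom n T δ a h, |F p| ≤ A1 * (Real.sqrt (dot (u p) (u p)) * |(u p).2|) +
      A2 * dot (u p) (u p) + B * Real.sqrt (dot (u p) (u p))) :
    |∫ p in dom n T δ 0 h, F p| ≤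
      A1 * Real.sqrt ((∫ p in dom n T δ a h, dot (u p) (u p)) *
        ∫ p in dom n T δ a h, (u p).2 ^ 2) +
      A2 * (∫ p in dom n T δ a h, dot (u p) (u p)) +
      B * Real.sqrt ((∫ p in dom n T δ a h, dot (u p) (u p)) *
        (T * (2 * δ) ^ n * (h - a))) := by
  have hsub : dom n T δ a h ⊆ dom n T δ 0 h := dom_mono ha le_rfl
  have e1 : ∫ p in dom n T δ 0 h, F p = ∫ p in dom n T δ a h, F p :=
    setIntegral_eq_of_subset_of_forall_sdiff_eq_zero (measurableSet_dom T δ 0 h) hsub h0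
  rw [e1]
  have hms : ∀ᵐ p ∂(volume.restrict (dom n T δ a h)), p ∈ dom n T δ a h :=
    ae_restrict_mem (measurableSet_dom T δ _ _)
  -- integrability
  have mu : AEStronglyMeasurable u (volume.restrict (dom n T δ a h)) :=
    H.meas_u.mono_measure (Measure.restrict_mono hsub le_rfl)
  have iu := H.sq_u.mono_set hsub
  have is : IntegrableOn (fun p => Real.sqrt (dot (u p) (u p)) ^ 2) (dom n T δ a h) := by
    refine iu.congr (Filter.Eventually.of_forall fun p => ?_)
    simp only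
    rw [Real.sq_sqrt (dot_nonneg _)]
  have hcs : Continuous fun a : Z n => Real.sqrt (dot a a) := continuous_dot_self.sqrt
  have hc2 : Continuous fun a : Z n => |a.2| := by fun_prop
  have i2 : IntegrableOn (fun p => |(u p).2| ^ 2) (dom n T δ a h) := by
    refine Integrable.mono' iu ((hc2.pow 2).comp_aestronglyMeasurable mu)
      (Filter.Eventually.of_forall fun p => ?_)
    rw [Real.norm_eq_abs, abs_of_nonneg (sq_nonneg _), sq_abs]
    exact sq_snd_le _
  have ip : IntegrableOn (fun p => Real.sqrt (dot (u p) (u p)) * |(u p).2|)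
      (dom n T δ a h) := by
    refine Integrable.mono' iu ((hcs.mul hc2).comp_aestronglyMeasurable mu)
      (Filter.Eventually.of_forall fun p => ?_)
    rw [Real.norm_eq_abs, abs_mul, abs_abs, abs_of_nonneg (Real.sqrt_nonneg _)]
    have k1 : |(u p).2| ≤ Real.sqrt (dot (u p) (u p)) := Real.abs_le_sqrt (sq_snd_le _)
    calc Real.sqrt (dot (u p) (u p)) * |(u p).2| ≤
          Real.sqrt (dot (u p) (u p)) * Real.sqrt (dot (u p) (u p)) := by gcongr
      _ = dot (u p) (u p) := Real.mul_self_sqrt (dot_nonneg _)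
  have ic : IntegrableOn (fun _ : ST n => (1 : ℝ)) (dom n T δ a h) :=
    integrableOn_const (volume_dom_lt T δ a h).ne
  have ic2 : IntegrableOn (fun _ : ST n => (1 : ℝ) ^ 2) (dom n T δ a h) := by
    simpa using ic
  have i1 : IntegrableOn (fun p => Real.sqrt (dot (u p) (u p)) * 1) (dom n T δ a h) := by
    refine Integrable.mono' (ic.add iu) ((hcs.comp_aestronglyMeasurable mu).mul_const 1)
      (Filter.Eventually.of_forall fun p => ?_)
    rw [mul_one, Real.norm_eq_abs, abs_of_nonneg (Real.sqrt_nonneg _)]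
    simp only [Pi.add_apply]
    have k1 := Real.sq_sqrt (dot_nonneg (u p))
    nlinarith [sq_nonneg (Real.sqrt (dot (u p) (u p)) - 1)]
  have c1 := cs2 (μ := volume.restrict (dom n T δ a h)) is i2 ip
  have c2 := cs2 (μ := volume.restrict (dom n T δ a h)) is ic2 i1
  simp only [Real.sq_sqrt (dot_nonneg _), sq_abs, one_pow, mul_one] at c1 c2
  have e3 : ∫ _ in dom n T δ a h, (1 : ℝ) = T * (2 * δ) ^ n * (h - a) := by
    rw [setIntegral_const, volume_dom hT hδ hah, smul_eq_mul, mul_one]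
  rw [e3] at c2
  simp only [mul_one] at i1
  -- the estimate
  have hmain : ‖∫ p in dom n T δ a h, F p‖ ≤
      ∫ p in dom n T δ a h, (A1 * (Real.sqrt (dot (u p) (u p)) * |(u p).2|) +
        A2 * dot (u p) (u p) + B * Real.sqrt (dot (u p) (u p))) := by
    apply norm_integral_le_of_norm_le (((ip.const_mul A1).add (iu.const_mul A2)).add
      (i1.const_mul B))
    filter_upwards [hms] with p hp
    rw [Real.norm_eq_abs]
    exact hb p hp
  rw [Real.norm_eq_abs] at hmain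
  refine hmain.trans ?_
  have e4 : ∫ p in dom n T δ a h, (A1 * (Real.sqrt (dot (u p) (u p)) * |(u p).2|) +
        A2 * dot (u p) (u p) + B * Real.sqrt (dot (u p) (u p))) =
      A1 * (∫ p in dom n T δ a h, Real.sqrt (dot (u p) (u p)) * |(u p).2|) +
        A2 * (∫ p in dom n T δ a h, dot (u p) (u p)) +
        B * ∫ p in dom n T δ a h, Real.sqrt (dot (u p) (u p)) := by
    have j1 := ip.const_mul A1
    have j2 := iu.const_mul A2
    have j3 := i1.const_mul B
    have k1 := integral_add (j1.add j2) j3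
    have k2 := integral_add j1 j2
    simp only [Pi.add_apply] at k1
    rw [k1, k2, integral_const_mul, integral_const_mul, integral_const_mul]
  rw [e4]
  gcongr

theorem lift_pos_mem {γ : (Fin n → ℝ) → ℝ} {δ h T a : ℝ} {p : ST n}
    (hp : p ∈ dom n T δ 0 h \ dom n T δ a h) : lift γ (pos p) ∉ box γ δ a h := by
  obtain ⟨hp1, hp2⟩ := hp
  intro hc
  apply hp2
  have hc2 : ((lift γ (pos p)).1, (lift γ (pos p)).2 - γ (lift γ (pos p)).1) ∈
    layer n δ a h := hc
  have e2 : ((lift γ (pos p)).1, (lift γ (pos p)).2 - γ (lift γ (pos p)).1) = pos p := by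
    unfold lift
    simp
  rw [e2] at hc2
  exact ⟨⟨hp1.1.1, hc2.1⟩, hc2.2⟩

theorem test_zero {U : Set (Z n)} {F : Type} [NormedAddCommGroup F] [NormedSpace ℝ F]
    {φ : Z n → F} (hφ : IsTest U φ) {z : Z n} (hz : z ∉ U) :
    φ z = 0 ∧ (∀ v, pd v φ z = 0) ∧ lap φ z = 0 := by
  have hz' : z ∉ tsupport φ := fun hc => hz (hφ.supp hc)
  have k1 : ∀ v, pd v φ z = 0 := fun v => image_eq_zero_of_notMem_tsupport
    (fun hc => hz' (tsupport_pd φ v hc))
  have k2 : ∀ v, pd v (pd v φ) z = 0 := fun v => image_eq_zero_of_notMem_tsupport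
    (fun hc => hz' (tsupport_pd φ v (tsupport_pd (pd v φ) v hc)))
  refine ⟨image_eq_zero_of_notMem_tsupport hz', k1, ?_⟩
  unfold lap
  rw [Finset.sum_eq_zero fun i _ => k2 _, k2, add_zero]

/-- the weak formulation of a null trajectory, tested with `φ` -/
theorem core {γ : (Fin n → ℝ) → ℝ} {δ h T : ℝ} {u g : ST n → Z n} {u0 : Z n → Z n}
    (H : WeakTraj n γ δ h T u g u0 0) (hT : 0 ≤ T) (hδ : 0 < δ) {a A1 A2 B : ℝ} (ha : 0 ≤ a)
    (hah : a ≤ h) (hA1 : 0 ≤ A1) (hB : 0 ≤ B)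
    {φ : Z n → Z n} (hφ : IsTest (box γ δ a h) φ) (hdiv : ∀ z, div φ z = 0)
    (h1 : ∀ v z, |dot v (pd v φ z)| ≤ A1 * (Real.sqrt (dot v v) * |v.2|) + A2 * dot v v)
    (h2 : ∀ v z, |dot v (lap φ z)| ≤ B * Real.sqrt (dot v v)) :
    |∫ z in layer n δ 0 h, dot (u0 z) (φ (lift γ z))| ≤
      A1 * Real.sqrt ((∫ p in dom n T δ a h, dot (u p) (u p)) *
        ∫ p in dom n T δ a h, (u p).2 ^ 2) +
      A2 * (∫ p in dom n T δ a h, dot (u p) (u p)) +
      B * Real.sqrt ((∫ p in dom n T δ a h, dot (u p) (u p)) *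
        (T * (2 * δ) ^ n * (h - a))) := by
  have hlay : box γ δ a h ⊆ box γ δ 0 h := fun z hz =>
    (prod_mono le_rfl (Ioo_subset_Ioo ha le_rfl) : layer n δ a h ⊆ layer n δ 0 h) hz
  have hm := H.momentum (fun _ => 1) φ contDiff_const
    ⟨hφ.smooth, hφ.compact, hφ.supp.trans hlay⟩ hdiv
  have h0 : ∫ z in layer n δ 0 h, dot ((0 : Z n → Z n) z) (φ (lift γ z)) = 0 := by
    have h3 : ∀ z, dot ((0 : Z n → Z n) z) (φ (lift γ z)) = 0 := fun z => by simp [dot]
    simp only [h3, integral_zero]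
  have hd : ∀ t : ℝ, deriv (fun _ : ℝ => (1 : ℝ)) t = 0 := fun t => deriv_const t 1
  rw [h0, mul_zero, zero_sub, one_mul] at hm
  simp only [hd, zero_mul, zero_add, one_mul] at hm
  rw [← abs_neg, hm]
  apply int_bound H hT hδ ha hah hA1 hB
  · intro p hp
    obtain ⟨_, k1, k2⟩ := test_zero hφ (lift_pos_mem hp)
    rw [k1, k2]
    simp [dot]
  · intro p _
    exact (abs_add_le _ _).trans (add_le_add (h1 _ _) (h2 _ _))

end Pool.Agent.W5h42.KF
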