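import Mathlib

set_option autoImplicit false

/-! Weak trajectories of the Navier-Stokes equations next to a curved no-slip wall: definitions.
Space has `n + 1` dimensions; its points are `(x, y)` with `x` in `ℝ^n`, and the wall is the graph
`y = γ x`. The fluid is at the points `(x, γ x + s)`, `s > 0`, and all the fields of the fluid are
given as functions of `(x, s)`, or of `((t, x), s)`; the map `(x, s) ↦ (x, γ x + s)` preserves the
volume. The vectors are not transformed: `(v, w)` is the vector with tangential components `v` and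
the component `w` in the direction of `y`. -/

open MeasureTheory Set

namespace Pool.Agent.W5h42.KF

/-- the points of space, and the vectors: `n` components and the last one -/
abbrev Z (n : ℕ) : Type := (Fin n → ℝ) × ℝ

/-- the points `((t, x), s)` of space-time -/
abbrev ST (n : ℕ) : Type := (ℝ × (Fin n → ℝ)) × ℝ

/-- the coordinates `(x, s)` of the position of a point of space-time -/
def pos {n : ℕ} (p : ST n) : Z n := (p.1.2, p.2)

/-- the euclidean inner product -/
def dot {n : ℕ} (a b : Z n) : ℝ := ∑ i, a.1 i * b.1 i + a.2 * b.2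

/-- the unit vector of the direction `x_i` -/
def ex {n : ℕ} (i : Fin n) : Z n := (Pi.single i 1, 0)

/-- the unit vector of the direction `y` -/
def ey {n : ℕ} : Z n := (0, 1)

/-- the derivative in the direction `v` -/
noncomputable def pd {n : ℕ} {F : Type} [NormedAddCommGroup F] [NormedSpace ℝ F] (v : Z n)
    (f : Z n → F) (z : Z n) : F := fderiv ℝ f z v

/-- the Laplacian -/
noncomputable def lap {n : ℕ} {F : Type} [NormedAddCommGroup F] [NormedSpace ℝ F]
    (f : Z n → F) (z : Z n) : F := ∑ i, pd (ex i) (pd (ex i) f) z + pd ey (pd ey f) z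

/-- the divergence -/
noncomputable def div {n : ℕ} (φ : Z n → Z n) (z : Z n) : ℝ :=
  ∑ i, (pd (ex i) φ z).1 i + (pd ey φ z).2

/-- the coordinates `(x, s)` with `|x_i| < δ`, `a < s < b` -/
def layer (n : ℕ) (δ a b : ℝ) : Set (Z n) := Metric.ball (0 : Fin n → ℝ) δ ×ˢ Ioo a b

/-- the times in `(0, T)` and the positions with coordinates in the layer -/
def dom (n : ℕ) (T δ a b : ℝ) : Set (ST n) :=
  (Ioo 0 T ×ˢ Metric.ball (0 : Fin n → ℝ) δ) ×ˢ Ioo a b

/-- the point of space with the coordinates `z = (x, s)`, that is `(x, s + γ x)` -/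
def lift {n : ℕ} (γ : (Fin n → ℝ) → ℝ) (z : Z n) : Z n := (z.1, z.2 + γ z.1)

/-- the points `(x, y)` with `|x_i| < δ`, `a < y - γ x < b` -/
def box {n : ℕ} (γ : (Fin n → ℝ) → ℝ) (δ a b : ℝ) : Set (Z n) :=
  {z | (z.1, z.2 - γ z.1) ∈ layer n δ a b}

/-- smooth functions with compact support in `U` -/
structure IsTest {n : ℕ} {F : Type} [NormedAddCommGroup F] [NormedSpace ℝ F] (U : Set (Z n))
    (f : Z n → F) : Prop where
  smooth : ContDiff ℝ (⊤ : ℕ∞) f
  compact : HasCompactSupport f
  supp : tsupport f ⊆ U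

/-- `u` is the velocity of a weak trajectory on `[0, T]` in the box `|x_i| < δ`, `0 < y - γ x < h`
whose side `y = γ x` is a no-slip wall, with initial value `u0` and final value `uT`: `u` and its
derivative `g` in the direction `y` are square integrable, `u` vanishes at the wall (for almost all
`t, x` it is the integral of `g` from the wall), and the Navier-Stokes equations with unit viscosity
hold, tested with the products `θ(t) φ(x, y)` of smooth functions of the time and solenoidal fields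
with compact support in the box. -/
structure WeakTraj (n : ℕ) (γ : (Fin n → ℝ) → ℝ) (δ h T : ℝ) (u g : ST n → Z n)
    (u0 uT : Z n → Z n) : Prop where
  meas_u : AEStronglyMeasurable u (volume.restrict (dom n T δ 0 h))
  meas_g : AEStronglyMeasurable g (volume.restrict (dom n T δ 0 h))
  sq_u : IntegrableOn (fun p => dot (u p) (u p)) (dom n T δ 0 h)
  sq_g : IntegrableOn (fun p => dot (g p) (g p)) (dom n T δ 0 h)
  noslip : ∀ᵐ q : ℝ × (Fin n → ℝ), q ∈ Ioo 0 T ×ˢ Metric.ball (0 : Fin n → ℝ) δ →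
    ∀ s ∈ Ioo 0 h, u (q, s) = ∫ r in Ioo 0 s, g (q, r)
  momentum : ∀ (θ : ℝ → ℝ) (φ : Z n → Z n), ContDiff ℝ (⊤ : ℕ∞) θ → IsTest (box γ δ 0 h) φ →
    (∀ z, div φ z = 0) →
    θ T * (∫ z in layer n δ 0 h, dot (uT z) (φ (lift γ z))) -
        θ 0 * ∫ z in layer n δ 0 h, dot (u0 z) (φ (lift γ z)) =
      ∫ p in dom n T δ 0 h, (deriv θ p.1.1 * dot (u p) (φ (lift γ (pos p))) +
        θ p.1.1 * (dot (u p) (pd (u p) φ (lift γ (pos p))) +
          dot (u p) (lap φ (lift γ (pos p)))))

/-- the solenoidal field `∂_y ψ e_i - ∂_i ψ e_y`; the integral of its inner product with `u` is that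
of `ψ ω_i`, where `ω_i = ∂_i u_y - ∂_y u_i` is a component of the vorticity -/
noncomputable def rot {n : ℕ} (i : Fin n) (ψ : Z n → ℝ) (z : Z n) : Z n :=
  (Pi.single i (pd ey ψ z), -pd (ex i) ψ z)

/-- the component `ω_i` of the vorticity of `u0` is at least `a` in the box, in the sense of
distributions -/
def VortGE {n : ℕ} (γ : (Fin n → ℝ) → ℝ) (δ h : ℝ) (i : Fin n) (a : ℝ) (u0 : Z n → Z n) : Prop :=
  ∀ ψ : Z n → ℝ, IsTest (box γ δ 0 h) ψ → (∀ z, 0 ≤ ψ z) →
    a * ∫ z in layer n δ 0 h, ψ (lift γ z) ≤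
      ∫ z in layer n δ 0 h, dot (u0 z) (rot i ψ (lift γ z))

/-- the wall `y = h Γ (x / δ)` -/
noncomputable def wall {n : ℕ} (Γ : (Fin n → ℝ) → ℝ) (δ h : ℝ) (x : Fin n → ℝ) : ℝ :=
  h * Γ (δ⁻¹ • x)

/-- `Γ` is smooth and its derivatives of the orders `1, ..., 2 m + 3` are at most 1 for
`|x_i| < 1` -/
structure Profile {n : ℕ} (m : ℕ) (Γ : (Fin n → ℝ) → ℝ) : Prop where
  smooth : ContDiff ℝ (⊤ : ℕ∞) Γ
  bound : ∀ x ∈ Metric.ball (0 : Fin n → ℝ) 1, ∀ k : ℕ, 1 ≤ k → k ≤ 2 * m + 3 →
    ‖iteratedFDeriv ℝ k Γ x‖ ≤ 1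

end Pool.Agent.W5h42.KF
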