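import Pool.Agent.W5h42.KF.Defs

set_option autoImplicit false

/-! The inequality of Hardy type near a no-slip wall. -/

open MeasureTheory Set

namespace Pool.Agent.W5h42.KF

variable {n : ℕ}

theorem dot_self (a : Z n) : dot a a = ∑ i, a.1 i ^ 2 + a.2 ^ 2 := by
  unfold dot
  simp only [sq]

theorem dot_nonneg (a : Z n) : 0 ≤ dot a a := by
  rw [dot_self]
  positivity

theorem sq_fst_le (a : Z n) (i : Fin n) : a.1 i ^ 2 ≤ dot a a := by
  rw [dot_self]
  have h1 : a.1 i ^ 2 ≤ ∑ j, a.1 j ^ 2 :=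
    Finset.single_le_sum (f := fun j => a.1 j ^ 2) (fun j _ => sq_nonneg _) (Finset.mem_univ i)
  nlinarith [sq_nonneg a.2]

theorem sq_snd_le (a : Z n) : a.2 ^ 2 ≤ dot a a := by
  rw [dot_self]
  have h1 : 0 ≤ ∑ j, a.1 j ^ 2 := Finset.sum_nonneg fun j _ => sq_nonneg _
  linarith

theorem norm_le_sqrt (a : Z n) : ‖a‖ ≤ Real.sqrt (dot a a) := by
  have h1 : ∀ x : ℝ, x ^ 2 ≤ dot a a → |x| ≤ Real.sqrt (dot a a) := fun x hx =>
    Real.abs_le_sqrt hx
  rw [Prod.norm_def, max_le_iff]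
  constructor
  · rw [pi_norm_le_iff_of_nonneg (Real.sqrt_nonneg _)]
    intro i
    exact h1 _ (sq_fst_le a i)
  · exact h1 _ (sq_snd_le a)

theorem norm_sq_le (a : Z n) : ‖a‖ ^ 2 ≤ dot a a := by
  have h1 := norm_le_sqrt a
  calc ‖a‖ ^ 2 ≤ Real.sqrt (dot a a) ^ 2 := by gcongr
    _ = dot a a := Real.sq_sqrt (dot_nonneg a)

theorem cs {f : ℝ → ℝ} {y : ℝ} (hy : 0 < y)
    (hf : AEStronglyMeasurable f (volume.restrict (Ioo 0 y)))
    (h2 : IntegrableOn (fun s => f s ^ 2) (Ioo 0 y)) :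
    (∫ s in Ioo 0 y, f s) ^ 2 ≤ y * ∫ s in Ioo 0 y, f s ^ 2 := by
  have h1 : IntegrableOn f (Ioo 0 y) := by
    have hc : IntegrableOn (fun _ : ℝ => (1 : ℝ)) (Ioo 0 y) := by
      simp
    refine Integrable.mono' (hc.add h2) hf (Filter.Eventually.of_forall fun s => ?_)
    simp only [Pi.add_apply, Real.norm_eq_abs]
    rw [abs_le]
    constructor <;> nlinarith [sq_nonneg (f s - 1), sq_nonneg (f s + 1)]
  set A := ∫ s in Ioo 0 y, f s with hA
  set m := A / y with hm
  have hv : volume.real (Ioo 0 y) = y := by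
    rw [Real.volume_real_Ioo_of_le hy.le, sub_zero]
  have h3 : ∫ s in Ioo 0 y, (f s - m) ^ 2 = (∫ s in Ioo 0 y, f s ^ 2) - 2 * m * A + m ^ 2 * y := by
    have e1 : ∀ s, (f s - m) ^ 2 = f s ^ 2 - 2 * m * f s + m ^ 2 := fun s => by ring
    simp only [e1]
    have hi2 : IntegrableOn (fun s => 2 * m * f s) (Ioo 0 y) := h1.const_mul _
    have hi3 : IntegrableOn (fun _ : ℝ => m ^ 2) (Ioo 0 y) := by
      simp
    have hi4 : IntegrableOn (fun s => f s ^ 2 - 2 * m * f s) (Ioo 0 y) := h2.sub hi2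
    rw [integral_add hi4 hi3, integral_sub h2 hi2, integral_const_mul, setIntegral_const,
      hv, smul_eq_mul]
    ring
  have h4 : 0 ≤ ∫ s in Ioo 0 y, (f s - m) ^ 2 :=
    integral_nonneg fun s => sq_nonneg _
  rw [h3] at h4
  have h5 : m * y = A := by
    rw [hm]
    field_simp
  have h6 : m ^ 2 * y = m * A := by rw [sq, mul_assoc, h5]
  have h7 : A ^ 2 = y * (m * A) := by
    rw [← h5]
    ring
  rw [h7]
  apply mul_le_mul_of_nonneg_left _ hy.le
  linarith [h4, h6]

theorem dot_integral {g : ℝ → Z n} {y : ℝ} (hy : 0 < y)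
    (hf : AEStronglyMeasurable g (volume.restrict (Ioo 0 y)))
    (h2 : IntegrableOn (fun s => dot (g s) (g s)) (Ioo 0 y)) :
    dot (∫ s in Ioo 0 y, g s) (∫ s in Ioo 0 y, g s) ≤ y * ∫ s in Ioo 0 y, dot (g s) (g s) := by
  by_cases hg : IntegrableOn g (Ioo 0 y)
  · have hi : ∀ i : Fin n, IntegrableOn (fun s => (g s).1 i ^ 2) (Ioo 0 y) := by
      intro i
      refine Integrable.mono' h2 ?_ (Filter.Eventually.of_forall fun s => ?_)
      · have hc : Continuous fun z : Z n => z.1 i ^ 2 := by fun_prop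
        exact hc.comp_aestronglyMeasurable hf
      · rw [Real.norm_eq_abs, abs_of_nonneg (sq_nonneg _)]
        exact sq_fst_le _ i
    have hs : IntegrableOn (fun s => (g s).2 ^ 2) (Ioo 0 y) := by
      refine Integrable.mono' h2 ?_ (Filter.Eventually.of_forall fun s => ?_)
      · have hc : Continuous fun z : Z n => z.2 ^ 2 := by fun_prop
        exact hc.comp_aestronglyMeasurable hf
      · rw [Real.norm_eq_abs, abs_of_nonneg (sq_nonneg _)]
        exact sq_snd_le _
    have e1 : ∀ i : Fin n, (∫ s in Ioo 0 y, g s).1 i = ∫ s in Ioo 0 y, (g s).1 i := by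
      intro i
      have h3 := ContinuousLinearMap.integral_comp_comm
        ((ContinuousLinearMap.proj (R := ℝ) (φ := fun _ : Fin n => ℝ) i).comp
          (ContinuousLinearMap.fst ℝ (Fin n → ℝ) ℝ)) hg
      exact h3.symm
    have e2 : (∫ s in Ioo 0 y, g s).2 = ∫ s in Ioo 0 y, (g s).2 := by
      have h3 := ContinuousLinearMap.integral_comp_comm
        (ContinuousLinearMap.snd ℝ (Fin n → ℝ) ℝ) hg
      exact h3.symm
    have e3 : ∫ s in Ioo 0 y, dot (g s) (g s) =
        ∑ i, (∫ s in Ioo 0 y, (g s).1 i ^ 2) + ∫ s in Ioo 0 y, (g s).2 ^ 2 := by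
      simp only [dot_self]
      rw [integral_add (integrable_finsetSum _ fun i _ => hi i) hs,
        integral_finsetSum _ fun i _ => hi i]
    rw [e3, dot_self, e2, mul_add, Finset.mul_sum]
    apply add_le_add
    · apply Finset.sum_le_sum
      intro i _
      rw [e1]
      refine cs hy ?_ (hi i)
      have hc : Continuous fun z : Z n => z.1 i := by fun_prop
      exact hc.comp_aestronglyMeasurable hf
    · refine cs hy ?_ hs
      exact continuous_snd.comp_aestronglyMeasurable hf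
  · rw [integral_undef hg]
    have h0 : dot (0 : Z n) 0 = 0 := by simp [dot]
    rw [h0]
    exact mul_nonneg hy.le (integral_nonneg fun s => dot_nonneg _)

theorem dom_mono {T δ a b a' b' : ℝ} (ha : a' ≤ a) (hb : b ≤ b') :
    dom n T δ a b ⊆ dom n T δ a' b' := by
  unfold dom
  exact prod_mono le_rfl (Ioo_subset_Ioo ha hb)

theorem measurableSet_dom (T δ a b : ℝ) : MeasurableSet (dom n T δ a b) :=
  (measurableSet_Ioo.prod Metric.isOpen_ball.measurableSet).prod measurableSet_Ioo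

theorem volume_dom {T δ a b : ℝ} (hT : 0 ≤ T) (hδ : 0 < δ) (hab : a ≤ b) :
    volume.real (dom n T δ a b) = T * (2 * δ) ^ n * (b - a) := by
  have h1 : volume (dom n T δ a b) = ENNReal.ofReal T * ENNReal.ofReal ((2 * δ) ^ n) *
      ENNReal.ofReal (b - a) := by
    unfold dom
    rw [Measure.volume_eq_prod, Measure.prod_prod, Measure.volume_eq_prod, Measure.prod_prod,
      Real.volume_Ioo, Real.volume_Ioo, sub_zero, Real.volume_pi_ball _ hδ, Fintype.card_fin]
  rw [Measure.real, h1, ENNReal.toReal_mul, ENNReal.toReal_mul, ENNReal.toReal_ofReal hT,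
    ENNReal.toReal_ofReal (by positivity), ENNReal.toReal_ofReal (by linarith)]

theorem volume_dom_lt (T δ a b : ℝ) : volume (dom n T δ a b) < ⊤ := by
  by_cases hδ : 0 < δ
  · unfold dom
    rw [Measure.volume_eq_prod, Measure.prod_prod, Measure.volume_eq_prod, Measure.prod_prod,
      Real.volume_Ioo, Real.volume_Ioo, Real.volume_pi_ball _ hδ]
    exact ENNReal.mul_lt_top (ENNReal.mul_lt_top ENNReal.ofReal_lt_top ENNReal.ofReal_lt_top)
      ENNReal.ofReal_lt_top
  · unfold dom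
    rw [Metric.ball_eq_empty.2 (not_lt.1 hδ)]
    simp

theorem integrableOn_N {T δ a b : ℝ} {u : ST n → Z n} {N : Z n → ℝ} (hNc : Continuous N)
    (hN0 : ∀ a, 0 ≤ N a) (hN1 : ∀ a, N a ≤ 1 + dot a a)
    (hm : AEStronglyMeasurable u (volume.restrict (dom n T δ a b)))
    (hi : IntegrableOn (fun p => dot (u p) (u p)) (dom n T δ a b)) :
    IntegrableOn (fun p => N (u p)) (dom n T δ a b) := by
  have hc : IntegrableOn (fun _ : ST n => (1 : ℝ)) (dom n T δ a b) :=
    integrableOn_const (volume_dom_lt T δ a b).ne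
  refine Integrable.mono' (hc.add hi) (hNc.comp_aestronglyMeasurable hm)
    (Filter.Eventually.of_forall fun p => ?_)
  rw [Real.norm_eq_abs, abs_of_nonneg (hN0 _)]
  exact hN1 _

theorem hardyN {γ : (Fin n → ℝ) → ℝ} {δ h T : ℝ} {u g : ST n → Z n} {u0 uT : Z n → Z n}
    (H : WeakTraj n γ δ h T u g u0 uT) (hh : 0 < h) {N : Z n → ℝ} {κ : ℝ} (hκ : 0 ≤ κ)
    (hNc : Continuous N) (hN0 : ∀ a, 0 ≤ N a) (hN1 : ∀ a, N a ≤ 1 + dot a a)
    (hNi : ∀ (f : ℝ → Z n) (y : ℝ), 0 < y → y ≤ h →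
      AEStronglyMeasurable f (volume.restrict (Ioo 0 y)) →
      IntegrableOn (fun s => dot (f s) (f s)) (Ioo 0 y) →
      N (∫ s in Ioo 0 y, f s) ≤ κ * ∫ s in Ioo 0 y, N (f s)) :
    ∫ p in dom n T δ 0 h, N (u p) ≤ h * κ * ∫ p in dom n T δ 0 h, N (g p) := by
  have iu := integrableOn_N hNc hN0 hN1 H.meas_u H.sq_u
  have ig := integrableOn_N hNc hN0 hN1 H.meas_g H.sq_g
  have mg := H.meas_g
  have id := H.sq_g
  set S : Set (ℝ × (Fin n → ℝ)) := Ioo 0 T ×ˢ Metric.ball (0 : Fin n → ℝ) δ with hS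
  have hSm : MeasurableSet S := measurableSet_Ioo.prod Metric.isOpen_ball.measurableSet
  have hd : dom n T δ 0 h = S ×ˢ Ioo 0 h := rfl
  rw [hd] at iu ig mg id ⊢
  have iu' : IntegrableOn (fun p : ST n => N (u p)) (S ×ˢ Ioo 0 h)
    ((volume : Measure (ℝ × (Fin n → ℝ))).prod (volume : Measure ℝ)) := iu
  have ig' : IntegrableOn (fun p : ST n => N (g p)) (S ×ˢ Ioo 0 h)
    ((volume : Measure (ℝ × (Fin n → ℝ))).prod (volume : Measure ℝ)) := ig
  have e1 := setIntegral_prod (fun p : ST n => N (u p)) iu'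
  have e2 := setIntegral_prod (fun p : ST n => N (g p)) ig'
  have e1' : ∫ p in S ×ˢ Ioo 0 h, N (u p) =
      ∫ q in S, ∫ y in Ioo 0 h, N (u (q, y)) := e1
  have e2' : ∫ p in S ×ˢ Ioo 0 h, N (g p) =
      ∫ q in S, ∫ y in Ioo 0 h, N (g (q, y)) := e2
  rw [e1', e2', ← integral_const_mul]
  have iu2 : Integrable (fun p : ST n => N (u p))
      ((volume.restrict S).prod (volume.restrict (Ioo 0 h))) := by
    rw [Measure.prod_restrict]
    exact iu'
  have ig2 : Integrable (fun p : ST n => N (g p))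
      ((volume.restrict S).prod (volume.restrict (Ioo 0 h))) := by
    rw [Measure.prod_restrict]
    exact ig'
  have id2 : Integrable (fun p : ST n => dot (g p) (g p))
      ((volume.restrict S).prod (volume.restrict (Ioo 0 h))) := by
    rw [Measure.prod_restrict]
    exact id
  have mg2 : AEStronglyMeasurable g
      ((volume.restrict S).prod (volume.restrict (Ioo 0 h))) := by
    rw [Measure.prod_restrict]
    exact mg
  apply integral_mono_ae iu2.integral_prod_left (ig2.integral_prod_left.const_mul _)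
  have h1 := iu2.prod_right_ae
  have h2 := ig2.prod_right_ae
  have h2' := id2.prod_right_ae
  have h3 := mg2.prodMk_left
  have h4 : ∀ᵐ q ∂(volume.restrict S), q ∈ S := ae_restrict_mem hSm
  have h5 : ∀ᵐ q ∂(volume.restrict S), q ∈ S →
      ∀ y ∈ Ioo 0 h, u (q, y) = ∫ s in Ioo 0 y, g (q, s) := ae_restrict_of_ae H.noslip
  filter_upwards [h1, h2, h2', h3, h4, h5] with q k1 k2 k2' k3 k4 k5
  have k6 := k5 k4
  set G := ∫ y in Ioo 0 h, N (g (q, y)) with hG
  have k7 : ∀ y ∈ Ioo 0 h, N (u (q, y)) ≤ κ * G := by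
    intro y hy
    have hsub2 : Ioo (0 : ℝ) y ⊆ Ioo 0 h := Ioo_subset_Ioo le_rfl hy.2.le
    rw [k6 y hy]
    have k8 : IntegrableOn (fun s => dot (g (q, s)) (g (q, s))) (Ioo 0 y) :=
      IntegrableOn.mono_set k2' hsub2
    refine (hNi (fun s => g (q, s)) y hy.1 hy.2.le
      (k3.mono_measure (Measure.restrict_mono hsub2 le_rfl)) k8).trans ?_
    apply mul_le_mul_of_nonneg_left _ hκ
    exact setIntegral_mono_set k2 (Filter.Eventually.of_forall fun s => hN0 _)
      (Filter.Eventually.of_forall hsub2)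
  have k9 : IntegrableOn (fun _ : ℝ => κ * G) (Ioo 0 h) :=
    integrableOn_const (by rw [Real.volume_Ioo]; exact ENNReal.ofReal_ne_top)
  calc ∫ y in Ioo 0 h, N (u (q, y)) ≤ ∫ _ in Ioo 0 h, κ * G :=
        setIntegral_mono_on k1 k9 measurableSet_Ioo k7
    _ = h * κ * G := by
        rw [setIntegral_const, Real.volume_real_Ioo_of_le hh.le, sub_zero, smul_eq_mul]
        ring

theorem continuous_dot_self : Continuous fun a : Z n => dot a a := by
  unfold dot
  fun_prop

theorem hardy {γ : (Fin n → ℝ) → ℝ} {δ h T : ℝ} {u g : ST n → Z n} {u0 uT : Z n → Z n}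
    (H : WeakTraj n γ δ h T u g u0 uT) (hh : 0 < h) :
    ∫ p in dom n T δ 0 h, dot (u p) (u p) ≤ h ^ 2 * ∫ p in dom n T δ 0 h, dot (g p) (g p) := by
  have h1 := hardyN H hh (N := fun a => dot a a) hh.le continuous_dot_self dot_nonneg
    (fun a => by linarith [dot_nonneg a]) (fun f y hy hyh hf h2 => by
      refine (dot_integral hy hf h2).trans ?_
      exact mul_le_mul_of_nonneg_right hyh (integral_nonneg fun s => dot_nonneg _))
  rw [sq]
  exact h1

theorem snd_integral (f : ℝ → Z n) {y : ℝ} (hf : IntegrableOn f (Ioo 0 y)) :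
    (∫ s in Ioo 0 y, f s).2 = ∫ s in Ioo 0 y, (f s).2 :=
  (ContinuousLinearMap.integral_comp_comm (ContinuousLinearMap.snd ℝ (Fin n → ℝ) ℝ) hf).symm

theorem hardy_snd {γ : (Fin n → ℝ) → ℝ} {δ h T : ℝ} {u g : ST n → Z n} {u0 uT : Z n → Z n}
    (H : WeakTraj n γ δ h T u g u0 uT) (hh : 0 < h) :
    ∫ p in dom n T δ 0 h, (u p).2 ^ 2 ≤ h ^ 2 * ∫ p in dom n T δ 0 h, (g p).2 ^ 2 := by
  have hc : Continuous fun a : Z n => a.2 ^ 2 := by fun_prop
  have h1 := hardyN H hh (N := fun a => a.2 ^ 2) hh.le hc (fun a => sq_nonneg _)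
    (fun a => by linarith [sq_snd_le a]) (fun f y hy hyh hf h2 => by
      have h0 : 0 ≤ ∫ s in Ioo 0 y, (f s).2 ^ 2 := integral_nonneg fun s => sq_nonneg _
      by_cases hg : IntegrableOn f (Ioo 0 y)
      · rw [snd_integral f hg]
        refine (cs hy (continuous_snd.comp_aestronglyMeasurable hf) ?_).trans
          (mul_le_mul_of_nonneg_right hyh h0)
        refine Integrable.mono' h2 (hc.comp_aestronglyMeasurable hf)
          (Filter.Eventually.of_forall fun s => ?_)
        rw [Real.norm_eq_abs, abs_of_nonneg (sq_nonneg _)]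
        exact sq_snd_le _
      · rw [integral_undef hg]
        simp only [Prod.snd_zero]
        rw [sq, mul_zero]
        exact mul_nonneg hh.le h0)
  rw [sq]
  exact h1

/-- the corresponding inequality with first powers -/
theorem hardy_one {γ : (Fin n → ℝ) → ℝ} {δ h T : ℝ} {u g : ST n → Z n} {u0 uT : Z n → Z n}
    (H : WeakTraj n γ δ h T u g u0 uT) (hh : 0 < h) :
    ∫ p in dom n T δ 0 h, |(u p).2| ≤ h * ∫ p in dom n T δ 0 h, |(g p).2| := by
  have hc : Continuous fun a : Z n => |a.2| := by fun_prop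
  have h1 := hardyN H hh (N := fun a => |a.2|) zero_le_one hc (fun a => abs_nonneg _)
    (fun a => by
      have k1 := sq_snd_le a
      have k2 : |a.2| ^ 2 = a.2 ^ 2 := sq_abs _
      nlinarith [sq_nonneg (|a.2| - 1)]) (fun f y hy hyh hf h2 => by
      have h0 : 0 ≤ ∫ s in Ioo 0 y, |(f s).2| := integral_nonneg fun s => abs_nonneg _
      by_cases hg : IntegrableOn f (Ioo 0 y)
      · rw [snd_integral f hg, one_mul]
        exact abs_integral_le_integral_abs
      · rw [integral_undef hg]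
        simp only [Prod.snd_zero, abs_zero, one_mul]
        exact h0)
  rw [mul_one] at h1
  exact h1

end Pool.Agent.W5h42.KF
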