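import Pool.Agent.W5h42.KF.Scaled

set_option autoImplicit false

/-! The lower bounds. -/

open MeasureTheory Set

namespace Pool.Agent.W5h42.KF

variable {n : ℕ}

theorem strip_nonneg (T δ a b : ℝ) (u : ST n → Z n) :
    0 ≤ ∫ p in dom n T δ a b, dot (u p) (u p) := integral_nonneg fun p => dot_nonneg _

theorem snd_nonneg (T δ a b : ℝ) (u : ST n → Z n) :
    0 ≤ ∫ p in dom n T δ a b, (u p).2 ^ 2 := integral_nonneg fun p => sq_nonneg _

/-- the inequality in the outer half of the layer -/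
theorem strip (n m : ℕ) : ∃ c : ℝ, 0 < c ∧ ∀ (i : Fin n) {Γ : (Fin n → ℝ) → ℝ}
    {δ h T a : ℝ}, Profile m Γ → 0 < T → 0 < h → h ≤ δ → 0 < a →
    ∀ {u g : ST n → Z n} {u0 : Z n → Z n},
    WeakTraj n (wall Γ δ h) δ h T u g u0 0 → VortGE (wall Γ δ h) δ h i a u0 →
    c * (a * h * δ ^ n) ≤ (1 + T / h ^ 2) ^ m *
      (h⁻¹ ^ 2 * Real.sqrt ((∫ p in dom n T δ (h / 2) h, dot (u p) (u p)) *
        ∫ p in dom n T δ (h / 2) h, (u p).2 ^ 2) +
      (h * δ)⁻¹ * (∫ p in dom n T δ (h / 2) h, dot (u p) (u p))) +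
      (T / h ^ 2) ^ m * (h⁻¹ ^ 3 *
        Real.sqrt (T * h * δ ^ n * ∫ p in dom n T δ (h / 2) h, dot (u p) (u p))) := by
  obtain ⟨C, hC1, hC⟩ := sbj_bounds n m
  have hC0 : 0 < C := lt_of_lt_of_le zero_lt_one hC1
  set c0 : ℝ := (1 / 8) ^ (n + 1) with hc0
  have hc0p : 0 < c0 := by positivity
  set N : ℝ := (n : ℝ) + 1 with hN
  have hN1 : 1 ≤ N := by
    rw [hN]
    have : (0 : ℝ) ≤ n := Nat.cast_nonneg n
    linarith
  have hNp : 0 < N := by positivity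
  set M : ℝ := C * N ^ m * (3 * ((m : ℝ) + 1) + N ^ 2 * 2 ^ n) with hM
  have hMp : 0 < M := by positivity
  refine ⟨c0 / M, by positivity, ?_⟩
  intro i Γ δ h T a hΓ hT hh hhδ ha u g u0 H hv
  have hδ : 0 < δ := hh.trans_le hhδ
  have hψ := sb_test hΓ.smooth hδ hh
  have hψj := fun j => sbj_test hΓ.smooth hδ hh j
  set γ := wall Γ δ h with hγ
  have hγc : Continuous γ := by
    rw [hγ]
    unfold wall
    have := hΓ.smooth.continuous
    fun_prop
  have hbox : box γ δ (h / 2) h ⊆ box γ δ 0 h := fun z hz =>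
    (prod_mono le_rfl (Ioo_subset_Ioo (by positivity) le_rfl) :
      layer n δ (h / 2) h ⊆ layer n δ 0 h) hz
  set I := ∫ p in dom n T δ (h / 2) h, dot (u p) (u p) with hI
  set J := ∫ p in dom n T δ (h / 2) h, (u p).2 ^ 2 with hJ
  have hI0 : 0 ≤ I := strip_nonneg T δ _ _ u
  have hJ0 : 0 ≤ J := snd_nonneg T δ _ _ u
  set φ : ℕ → Z n → Z n := fun j => rot i (sbj Γ hδ hh j) with hφ
  have hφt : ∀ j, IsTest (box γ δ (h / 2) h) (φ j) := fun j => (isTest_rot i (hψj j)).1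
  have hφd : ∀ j z, div (φ j) z = 0 := fun j => (isTest_rot i (hψj j)).2.1
  have hφs : ∀ j z, φ (j + 1) z = lap (φ j) z := by
    intro j z
    simp only [hφ]
    rw [lap_rot i (hψj j).smooth, sbj_succ hΓ.smooth]
  have hφ' : ∀ j, IsTest (box γ δ 0 h) (φ j) := fun j =>
    ⟨(hφt j).smooth, (hφt j).compact, (hφt j).supp.trans hbox⟩
  have ht := tele H hγc hφ' hφd hφs m
  set x : ℝ := T / h ^ 2 with hx
  have hx0 : 0 ≤ x := by positivity
  have hcoef : ∀ j : ℕ, T ^ j * ((N * h⁻¹ ^ 2) ^ j * C) = C * (N ^ j * x ^ j) := by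
    intro j
    rw [hx, mul_pow, div_pow, inv_pow, inv_pow]
    rw [div_eq_mul_inv]
    ring
  have hms : ∀ p ∈ dom n T δ (h / 2) h, 0 ≤ p.1.1 ∧ p.1.1 ≤ T := fun p hp =>
    ⟨hp.1.1.1.le, hp.1.1.2.le⟩
  set s1 := h⁻¹ ^ 2 * Real.sqrt (I * J) with hs1
  set s2 := (h * δ)⁻¹ * I with hs2
  set s3 := h⁻¹ ^ 3 * Real.sqrt (T * h * δ ^ n * I) with hs3
  have hs10 : 0 ≤ s1 := by positivity
  have hs20 : 0 ≤ s2 := by positivity
  have hs30 : 0 ≤ s3 := by positivity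
  -- the nonlinear terms
  have hA : ∀ j ∈ Finset.range (m + 1), |∫ p in dom n T δ 0 h,
      th j p.1.1 * dot (u p) (pd (u p) (φ j) (lift γ (pos p)))| ≤
      C * N ^ m * (1 + x) ^ m * (s1 + 3 * s2) := by
    intro j hj
    have hjm : j ≤ m := Nat.lt_succ_iff.1 (Finset.mem_range.1 hj)
    obtain ⟨p1, _, _⟩ := hC Γ hΓ hδ hh hhδ i j hjm
    have k1 := int_bound H hT.le hδ (a := h / 2)
      (A1 := T ^ j * (((N * h⁻¹ ^ 2) ^ j * C) * h⁻¹ ^ 2))
      (A2 := T ^ j * (3 * ((N * h⁻¹ ^ 2) ^ j * C) * (h * δ)⁻¹)) (B := 0)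
      (F := fun p => th j p.1.1 * dot (u p) (pd (u p) (φ j) (lift γ (pos p))))
      (by positivity) (by linarith) (by positivity) le_rfl
      (fun p hp => by
        obtain ⟨_, k1, _⟩ := test_zero (hφt j) (lift_pos_mem hp)
        rw [k1]
        simp [dot])
      (fun p hp => by
        obtain ⟨q1, q2⟩ := hms p hp
        rw [abs_mul, zero_mul, add_zero]
        have q3 := abs_th_le j q1 q2
        have q4 := p1 (u p) (lift γ (pos p))
        calc |th j p.1.1| * |dot (u p) (pd (u p) (φ j) (lift γ (pos p)))| ≤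
              T ^ j * (((N * h⁻¹ ^ 2) ^ j * C) * h⁻¹ ^ 2 *
                (Real.sqrt (dot (u p) (u p)) * |(u p).2|) +
              3 * ((N * h⁻¹ ^ 2) ^ j * C) * (h * δ)⁻¹ * dot (u p) (u p)) :=
              mul_le_mul q3 q4 (abs_nonneg _) (by positivity)
          _ = _ := by ring)
    rw [← hI, ← hJ, zero_mul, add_zero] at k1
    refine k1.trans ?_
    have e1 : T ^ j * (((N * h⁻¹ ^ 2) ^ j * C) * h⁻¹ ^ 2) * Real.sqrt (I * J) +
        T ^ j * (3 * ((N * h⁻¹ ^ 2) ^ j * C) * (h * δ)⁻¹) * I =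
        (T ^ j * ((N * h⁻¹ ^ 2) ^ j * C)) * (s1 + 3 * s2) := by
      rw [hs1, hs2]
      ring
    rw [e1, hcoef]
    have e2 : N ^ j ≤ N ^ m := pow_le_pow_right₀ hN1 hjm
    have e3 : x ^ j ≤ (1 + x) ^ m := by
      calc x ^ j ≤ (1 + x) ^ j := by gcongr; linarith
        _ ≤ (1 + x) ^ m := pow_le_pow_right₀ (by linarith) hjm
    have e4 : C * (N ^ j * x ^ j) ≤ C * N ^ m * (1 + x) ^ m := by
      calc C * (N ^ j * x ^ j) ≤ C * (N ^ m * (1 + x) ^ m) := by gcongr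
        _ = _ := by ring
    exact mul_le_mul_of_nonneg_right e4 (by positivity)
  -- the viscous term
  have hB : |∫ p in dom n T δ 0 h, th m p.1.1 * dot (u p) (φ (m + 1) (lift γ (pos p)))| ≤
      C * N ^ m * (N ^ 2 * 2 ^ n) * (x ^ m * s3) := by
    obtain ⟨_, p2, _⟩ := hC Γ hΓ hδ hh hhδ i m le_rfl
    have k1 := int_bound H hT.le hδ (a := h / 2) (A1 := 0) (A2 := 0)
      (B := T ^ m * (N ^ 2 * ((N * h⁻¹ ^ 2) ^ m * C) * h⁻¹ ^ 3))
      (F := fun p => th m p.1.1 * dot (u p) (φ (m + 1) (lift γ (pos p))))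
      (by positivity) (by linarith) le_rfl (by positivity)
      (fun p hp => by
        obtain ⟨k1, _, _⟩ := test_zero (hφt (m + 1)) (lift_pos_mem hp)
        rw [k1]
        simp [dot])
      (fun p hp => by
        obtain ⟨q1, q2⟩ := hms p hp
        rw [abs_mul, zero_mul, zero_mul, zero_add, zero_add, hφs]
        have q3 := abs_th_le m q1 q2
        have q4 := p2 (u p) (lift γ (pos p))
        calc |th m p.1.1| * |dot (u p) (lap (φ m) (lift γ (pos p)))| ≤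
              T ^ m * (N ^ 2 * ((N * h⁻¹ ^ 2) ^ m * C) * h⁻¹ ^ 3 *
                Real.sqrt (dot (u p) (u p))) :=
              mul_le_mul q3 q4 (abs_nonneg _) (by positivity)
          _ = _ := by ring)
    rw [← hI, zero_mul, zero_mul, zero_add, zero_add] at k1
    refine k1.trans ?_
    have k3 : Real.sqrt (I * (T * (2 * δ) ^ n * (h - h / 2))) ≤
        2 ^ n * Real.sqrt (T * h * δ ^ n * I) := by
      have e1 : (2 : ℝ) ^ n = Real.sqrt ((2 ^ n) ^ 2) := (Real.sqrt_sq (by positivity)).symm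
      rw [e1, ← Real.sqrt_mul (by positivity)]
      apply Real.sqrt_le_sqrt
      have e2 : (1 : ℝ) ≤ 2 ^ n := one_le_pow₀ (by norm_num)
      have e3 : 0 ≤ T * h * δ ^ n * I := by positivity
      have e4 : I * (T * (2 * δ) ^ n * (h - h / 2)) = 2 ^ n / 2 * (T * h * δ ^ n * I) := by
        rw [mul_pow]
        ring
      rw [e4]
      apply mul_le_mul_of_nonneg_right _ e3
      nlinarith
    calc T ^ m * (N ^ 2 * ((N * h⁻¹ ^ 2) ^ m * C) * h⁻¹ ^ 3) *
          Real.sqrt (I * (T * (2 * δ) ^ n * (h - h / 2))) ≤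
          T ^ m * (N ^ 2 * ((N * h⁻¹ ^ 2) ^ m * C) * h⁻¹ ^ 3) *
          (2 ^ n * Real.sqrt (T * h * δ ^ n * I)) := by gcongr
      _ = (T ^ m * ((N * h⁻¹ ^ 2) ^ m * C)) * (N ^ 2 * 2 ^ n) * s3 := by
          rw [hs3]
          ring
      _ = C * N ^ m * (N ^ 2 * 2 ^ n) * (x ^ m * s3) := by
          rw [hcoef]
          ring
  -- conclusion
  have k2 : a * (c0 * (h * δ ^ n)) ≤
      |∫ z in layer n δ 0 h, dot (u0 z) (φ 0 (lift γ z))| := by
    calc a * (c0 * (h * δ ^ n)) ≤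
          a * ∫ z in layer n δ 0 h, sb Γ hδ hh (lift (wall Γ δ h) z) := by
          gcongr
          exact sb_integral Γ hδ hh
      _ ≤ ∫ z in layer n δ 0 h, dot (u0 z) (rot i (sb Γ hδ hh) (lift (wall Γ δ h) z)) :=
          hv _ ⟨hψ.smooth, hψ.compact, hψ.supp.trans hbox⟩ (sb_nonneg Γ hδ hh)
      _ ≤ _ := le_abs_self _
  have k5 : |∫ z in layer n δ 0 h, dot (u0 z) (φ 0 (lift γ z))| ≤
      ((m : ℝ) + 1) * (C * N ^ m * (1 + x) ^ m * (s1 + 3 * s2)) +
        C * N ^ m * (N ^ 2 * 2 ^ n) * (x ^ m * s3) := by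
    rw [← abs_neg, ht]
    refine (abs_add_le _ _).trans (add_le_add ?_ hB)
    refine (Finset.abs_sum_le_sum_abs _ _).trans ((Finset.sum_le_sum hA).trans ?_)
    rw [Finset.sum_const, Finset.card_range, nsmul_eq_mul]
    push_cast
    exact le_rfl
  have k4 : a * (c0 * (h * δ ^ n)) ≤ M * ((1 + x) ^ m * (s1 + s2) + x ^ m * s3) := by
    refine k2.trans (k5.trans ?_)
    have q0 : 0 ≤ (1 + x) ^ m := by positivity
    have q1 : s1 + 3 * s2 ≤ 3 * (s1 + s2) := by linarith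
    have q2 : ((m : ℝ) + 1) * (C * N ^ m * (1 + x) ^ m * (s1 + 3 * s2)) ≤
        C * N ^ m * (3 * ((m : ℝ) + 1)) * ((1 + x) ^ m * (s1 + s2)) := by
      calc ((m : ℝ) + 1) * (C * N ^ m * (1 + x) ^ m * (s1 + 3 * s2)) ≤
            ((m : ℝ) + 1) * (C * N ^ m * (1 + x) ^ m * (3 * (s1 + s2))) := by gcongr
        _ = _ := by ring
    have q3 : 0 ≤ C * N ^ m * (N ^ 2 * 2 ^ n) * ((1 + x) ^ m * (s1 + s2)) := by positivity
    have q4 : 0 ≤ C * N ^ m * (3 * ((m : ℝ) + 1)) * (x ^ m * s3) := by positivity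
    have q5 : M * ((1 + x) ^ m * (s1 + s2) + x ^ m * s3) =
        C * N ^ m * (3 * ((m : ℝ) + 1)) * ((1 + x) ^ m * (s1 + s2)) +
        C * N ^ m * (N ^ 2 * 2 ^ n) * (x ^ m * s3) +
        C * N ^ m * (N ^ 2 * 2 ^ n) * ((1 + x) ^ m * (s1 + s2)) +
        C * N ^ m * (3 * ((m : ℝ) + 1)) * (x ^ m * s3) := by
      rw [hM]
      ring
    rw [q5]
    linarith
  have e8 : c0 / M * (a * h * δ ^ n) = (a * (c0 * (h * δ ^ n))) / M := by
    field_simp
  rw [e8, div_le_iff₀ hMp]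
  linarith

/-- the inequality for the dissipation in the layer -/
theorem product (n m : ℕ) : ∃ c : ℝ, 0 < c ∧ ∀ (i : Fin n) {Γ : (Fin n → ℝ) → ℝ}
    {δ h T a : ℝ}, Profile m Γ → 0 < T → 0 < h → h ≤ δ → 0 < a →
    ∀ {u g : ST n → Z n} {u0 : Z n → Z n},
    WeakTraj n (wall Γ δ h) δ h T u g u0 0 → VortGE (wall Γ δ h) δ h i a u0 →
    c * (a * h * δ ^ n) ≤ (1 + T / h ^ 2) ^ m *
      (Real.sqrt ((∫ p in dom n T δ 0 h, dot (g p) (g p)) * ∫ p in dom n T δ 0 h, (g p).2 ^ 2) +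
      h / δ * (∫ p in dom n T δ 0 h, dot (g p) (g p))) +
      (T / h ^ 2) ^ m *
        Real.sqrt (T * δ ^ n / h ^ 3 * ∫ p in dom n T δ 0 h, dot (g p) (g p)) := by
  obtain ⟨c, hc, h1⟩ := strip n m
  refine ⟨c, hc, ?_⟩
  intro i Γ δ h T a hΓ hT hh hhδ ha u g u0 H hv
  have hδ : 0 < δ := hh.trans_le hhδ
  have k0 := h1 i hΓ hT hh hhδ ha H hv
  set I := ∫ p in dom n T δ (h / 2) h, dot (u p) (u p) with hI
  set J := ∫ p in dom n T δ (h / 2) h, (u p).2 ^ 2 with hJ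
  set D := ∫ p in dom n T δ 0 h, dot (g p) (g p) with hD
  set E := ∫ p in dom n T δ 0 h, (g p).2 ^ 2 with hE
  have hI0 : 0 ≤ I := strip_nonneg T δ _ _ u
  have hJ0 : 0 ≤ J := snd_nonneg T δ _ _ u
  have hD0 : 0 ≤ D := strip_nonneg T δ _ _ g
  have hE0 : 0 ≤ E := snd_nonneg T δ _ _ g
  have hsub : dom n T δ (h / 2) h ⊆ dom n T δ 0 h := dom_mono (by positivity) le_rfl
  have hID : I ≤ h ^ 2 * D := by
    refine le_trans ?_ (hardy H hh)
    exact setIntegral_mono_set H.sq_u (Filter.Eventually.of_forall fun p => dot_nonneg _)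
      (Filter.Eventually.of_forall hsub)
  have hJE : J ≤ h ^ 2 * E := by
    refine le_trans ?_ (hardy_snd H hh)
    apply setIntegral_mono_set _ (Filter.Eventually.of_forall fun p => sq_nonneg _)
      (Filter.Eventually.of_forall hsub)
    have hc2 : Continuous fun a : Z n => a.2 ^ 2 := by fun_prop
    refine Integrable.mono' H.sq_u (hc2.comp_aestronglyMeasurable H.meas_u)
      (Filter.Eventually.of_forall fun p => ?_)
    rw [Real.norm_eq_abs, abs_of_nonneg (sq_nonneg _)]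
    exact sq_snd_le _
  have t1 : h⁻¹ ^ 2 * Real.sqrt (I * J) ≤ Real.sqrt (D * E) := by
    have e1 : Real.sqrt (I * J) ≤ h ^ 2 * Real.sqrt (D * E) := by
      have e2 : h ^ 2 = Real.sqrt ((h ^ 2) ^ 2) := (Real.sqrt_sq (by positivity)).symm
      rw [e2, ← Real.sqrt_mul (by positivity)]
      apply Real.sqrt_le_sqrt
      calc I * J ≤ (h ^ 2 * D) * (h ^ 2 * E) := mul_le_mul hID hJE hJ0 (by positivity)
        _ = (h ^ 2) ^ 2 * (D * E) := by ring
    calc h⁻¹ ^ 2 * Real.sqrt (I * J) ≤ h⁻¹ ^ 2 * (h ^ 2 * Real.sqrt (D * E)) := by gcongr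
      _ = Real.sqrt (D * E) := by field_simp
  have t2 : (h * δ)⁻¹ * I ≤ h / δ * D := by
    calc (h * δ)⁻¹ * I ≤ (h * δ)⁻¹ * (h ^ 2 * D) := by gcongr
      _ = h / δ * D := by field_simp
  have t3 : h⁻¹ ^ 3 * Real.sqrt (T * h * δ ^ n * I) ≤ Real.sqrt (T * δ ^ n / h ^ 3 * D) := by
    have e2 : h⁻¹ ^ 3 = Real.sqrt ((h⁻¹ ^ 3) ^ 2) := (Real.sqrt_sq (by positivity)).symm
    rw [e2, ← Real.sqrt_mul (by positivity)]
    apply Real.sqrt_le_sqrt
    calc (h⁻¹ ^ 3) ^ 2 * (T * h * δ ^ n * I) ≤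
          (h⁻¹ ^ 3) ^ 2 * (T * h * δ ^ n * (h ^ 2 * D)) := by gcongr
      _ = T * δ ^ n / h ^ 3 * D := by field_simp
  refine k0.trans ?_
  gcongr

/-- the lower bound for the dissipation -/
theorem dissip (n m : ℕ) : ∃ c : ℝ, 0 < c ∧ ∀ (i : Fin n) {Γ : (Fin n → ℝ) → ℝ}
    {δ h T a : ℝ}, Profile m Γ → 0 < T → 0 < h → h ≤ δ → (T ≤ h ^ 2 ∨ m = 0) → 0 < a →
    ∀ {u g : ST n → Z n} {u0 : Z n → Z n},
    WeakTraj n (wall Γ δ h) δ h T u g u0 0 → VortGE (wall Γ δ h) δ h i a u0 →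
    c * (a ^ 2 * h ^ 5 * δ ^ n) ≤
      (a * h ^ 4 + T * (T / h ^ 2) ^ (2 * m)) * ∫ p in dom n T δ 0 h, dot (g p) (g p) := by
  obtain ⟨c, hc, h1⟩ := product n m
  refine ⟨min (c / (4 * 2 ^ m)) (c ^ 2 / 4), by positivity, ?_⟩
  intro i Γ δ h T a hΓ hT hh hhδ hTh ha u g u0 H hv
  have hδ : 0 < δ := hh.trans_le hhδ
  have k0 := h1 i hΓ hT hh hhδ ha H hv
  set D := ∫ p in dom n T δ 0 h, dot (g p) (g p) with hD
  set E := ∫ p in dom n T δ 0 h, (g p).2 ^ 2 with hE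
  have hD0 : 0 ≤ D := strip_nonneg T δ _ _ g
  have hE0 : 0 ≤ E := snd_nonneg T δ _ _ g
  have hED : E ≤ D := by
    have hc2 : Continuous fun a : Z n => a.2 ^ 2 := by fun_prop
    have i1 : IntegrableOn (fun p => (g p).2 ^ 2) (dom n T δ 0 h) := by
      refine Integrable.mono' H.sq_g (hc2.comp_aestronglyMeasurable H.meas_g)
        (Filter.Eventually.of_forall fun p => ?_)
      rw [Real.norm_eq_abs, abs_of_nonneg (sq_nonneg _)]
      exact sq_snd_le _
    exact integral_mono i1 H.sq_g fun p => sq_snd_le _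
  have t1 : Real.sqrt (D * E) ≤ D := by
    calc Real.sqrt (D * E) ≤ Real.sqrt (D * D) := Real.sqrt_le_sqrt (by gcongr)
      _ = D := Real.sqrt_mul_self hD0
  have t2 : h / δ * D ≤ D := by
    have : h / δ ≤ 1 := by
      rw [div_le_one hδ]
      exact hhδ
    nlinarith
  set x : ℝ := T / h ^ 2 with hx
  have hx0 : 0 ≤ x := by positivity
  have t4 : (1 + x) ^ m ≤ 2 ^ m := by
    rcases hTh with h2 | h2
    · have : x ≤ 1 := by
        rw [hx, div_le_one (by positivity)]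
        exact h2
      gcongr
      linarith
    · subst h2
      simp
  set s := Real.sqrt (T * δ ^ n / h ^ 3 * D) with hs
  have hs0 : 0 ≤ s := Real.sqrt_nonneg _
  have hs2 : s ^ 2 = T * δ ^ n / h ^ 3 * D := Real.sq_sqrt (by positivity)
  set X := c * (a * h * δ ^ n) with hX
  have hX0 : 0 < X := by positivity
  have k1 : X ≤ 2 ^ m * (2 * D) + x ^ m * s := by
    refine k0.trans ?_
    have e1 : Real.sqrt (D * E) + h / δ * D ≤ 2 * D := by linarith
    have e2 : 0 ≤ Real.sqrt (D * E) + h / δ * D := by positivity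
    have e3 : (1 + x) ^ m * (Real.sqrt (D * E) + h / δ * D) ≤ 2 ^ m * (2 * D) :=
      mul_le_mul t4 e1 e2 (by positivity)
    linarith
  rcases le_or_gt X (4 * 2 ^ m * D) with k2 | k2
  · have k3 : c / (4 * 2 ^ m) * (a * h * δ ^ n) ≤ D := by
      rw [div_mul_eq_mul_div, div_le_iff₀ (by positivity)]
      rw [hX] at k2
      linarith
    calc min (c / (4 * 2 ^ m)) (c ^ 2 / 4) * (a ^ 2 * h ^ 5 * δ ^ n) ≤
          c / (4 * 2 ^ m) * (a ^ 2 * h ^ 5 * δ ^ n) := by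
          gcongr
          exact min_le_left _ _
      _ = a * h ^ 4 * (c / (4 * 2 ^ m) * (a * h * δ ^ n)) := by ring
      _ ≤ a * h ^ 4 * D := by gcongr
      _ ≤ (a * h ^ 4 + T * x ^ (2 * m)) * D := by
          have : 0 ≤ T * x ^ (2 * m) * D := by positivity
          nlinarith
  · have k3 : X / 2 ≤ x ^ m * s := by
      have : 2 ^ m * (2 * D) = 4 * 2 ^ m * D / 2 := by ring
      linarith
    have k4 : (X / 2) ^ 2 ≤ x ^ (2 * m) * (T * δ ^ n / h ^ 3 * D) := by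
      calc (X / 2) ^ 2 ≤ (x ^ m * s) ^ 2 := by gcongr
        _ = x ^ (2 * m) * (T * δ ^ n / h ^ 3 * D) := by
            rw [mul_pow, hs2, ← pow_mul, mul_comm m 2]
    have k5 : c ^ 2 / 4 * (a ^ 2 * h ^ 2 * δ ^ n) * δ ^ n ≤
        T * x ^ (2 * m) * D / h ^ 3 * δ ^ n := by
      calc c ^ 2 / 4 * (a ^ 2 * h ^ 2 * δ ^ n) * δ ^ n = (X / 2) ^ 2 := by
            rw [hX]
            ring
        _ ≤ x ^ (2 * m) * (T * δ ^ n / h ^ 3 * D) := k4
        _ = T * x ^ (2 * m) * D / h ^ 3 * δ ^ n := by ring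
    have k6 : c ^ 2 / 4 * (a ^ 2 * h ^ 2 * δ ^ n) ≤ T * x ^ (2 * m) * D / h ^ 3 :=
      le_of_mul_le_mul_right k5 (by positivity)
    have k7 : c ^ 2 / 4 * (a ^ 2 * h ^ 5 * δ ^ n) ≤ T * x ^ (2 * m) * D := by
      rw [le_div_iff₀ (by positivity)] at k6
      calc c ^ 2 / 4 * (a ^ 2 * h ^ 5 * δ ^ n) =
            c ^ 2 / 4 * (a ^ 2 * h ^ 2 * δ ^ n) * h ^ 3 := by ring
        _ ≤ T * x ^ (2 * m) * D := k6
    calc min (c / (4 * 2 ^ m)) (c ^ 2 / 4) * (a ^ 2 * h ^ 5 * δ ^ n) ≤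
          c ^ 2 / 4 * (a ^ 2 * h ^ 5 * δ ^ n) := by
          gcongr
          exact min_le_right _ _
      _ ≤ T * x ^ (2 * m) * D := k7
      _ ≤ (a * h ^ 4 + T * x ^ (2 * m)) * D := by
          have : 0 ≤ a * h ^ 4 * D := by positivity
          nlinarith

/-- the qualitative statement, for an arbitrary initial value and an arbitrary wall -/
theorem qual {γ : (Fin n → ℝ) → ℝ} {δ h : ℝ} (hδ : 0 < δ) (hh : 0 < h) {u0 φ : Z n → Z n}
    (hφ : IsTest (box γ δ 0 h) φ) (hdiv : ∀ z, div φ z = 0)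
    (h0 : ∫ z in layer n δ 0 h, dot (u0 z) (φ (lift γ z)) ≠ 0) :
    ∃ c : ℝ, 0 < c ∧ ∀ T : ℝ, 0 < T → T ≤ 1 → ∀ u g : ST n → Z n,
      WeakTraj n γ δ h T u g u0 0 → c ≤ ∫ p in dom n T δ 0 h, dot (g p) (g p) := by
  set N : ℝ := (n : ℝ) + 1 with hN
  have hNp : 0 < N := by positivity
  obtain ⟨C1, l1⟩ := ((hφ.smooth.fderiv_right (m := (⊤ : ℕ∞)) (by simp)).continuous).bounded_above_of_compact_support
    (hφ.compact.fderiv ℝ)
  have hC1 : 0 ≤ C1 := (norm_nonneg _).trans (l1 0)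
  have h2 : ∀ a : Z n, ∃ C : ℝ, 0 ≤ C ∧ ∀ z, ‖pd a (pd a φ) z‖ ≤ C := fun a =>
    ((hφ.pd a).pd a).bound
  choose C2 hC2 l2 using h2
  obtain ⟨M, hM⟩ := (((finite_range (ex : Fin n → Z n)).insert ey).image C2).bddAbove
  have hM0 : 0 ≤ M := (hC2 _).trans (hM (mem_image_of_mem C2 (mem_insert _ _)))
  set m := |∫ z in layer n δ 0 h, dot (u0 z) (φ (lift γ z))| with hm
  have hmp : 0 < m := abs_pos.2 h0
  set A : ℝ := N * C1 with hA
  set B : ℝ := N * (N * M) with hB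
  have hA0 : 0 ≤ A := by positivity
  have hB0 : 0 ≤ B := by positivity
  set V : ℝ := (2 * δ) ^ n * h with hV
  have hVp : 0 < V := by positivity
  -- `m ≤ A I + B sqrt (I V)` forces `I` to be bounded below
  set c1 : ℝ := min (m / (2 * (A + 1))) ((m / 2) ^ 2 / (B ^ 2 * V + 1)) with hc1
  have hc1p : 0 < c1 := by positivity
  refine ⟨c1 / h ^ 2, by positivity, fun T hT hT1 u g H => ?_⟩
  have k1 := core H hT.le hδ (a := 0) (A1 := 0) (A2 := A) (B := B) le_rfl hh.le le_rfl hB0 hφ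
    hdiv
    (fun v z => by
      have h1 := abs_dot_le v (pd v φ z)
      calc |dot v (pd v φ z)| ≤ N * (‖v‖ * ‖pd v φ z‖) := h1
        _ ≤ N * (‖v‖ * (C1 * ‖v‖)) := by
            gcongr
            exact ((fderiv ℝ φ z).le_opNorm v).trans (by gcongr; exact l1 z)
        _ = A * ‖v‖ ^ 2 := by rw [hA]; ring
        _ ≤ A * dot v v := by
            gcongr
            exact norm_sq_le v
        _ = 0 * (Real.sqrt (dot v v) * |v.2|) + A * dot v v := by ring)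
    (fun v z => by
      have h1 := abs_dot_le v (lap φ z)
      have h3 : ‖lap φ z‖ ≤ N * M := by
        apply norm_lap_le
        intro a ha
        exact (l2 a z).trans (hM (mem_image_of_mem C2 ha))
      calc |dot v (lap φ z)| ≤ N * (‖v‖ * ‖lap φ z‖) := h1
        _ ≤ N * (Real.sqrt (dot v v) * (N * M)) := by
            gcongr
            exact norm_le_sqrt v
        _ = B * Real.sqrt (dot v v) := by rw [hB]; ring)
  rw [← hm, zero_mul, zero_add, sub_zero] at k1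
  set I := ∫ p in dom n T δ 0 h, dot (u p) (u p) with hI
  have hI0 : 0 ≤ I := strip_nonneg T δ _ _ u
  have k3 : I ≤ h ^ 2 * ∫ p in dom n T δ 0 h, dot (g p) (g p) := hardy H hh
  have k4 : Real.sqrt (I * (T * (2 * δ) ^ n * h)) ≤ Real.sqrt (I * V) := by
    apply Real.sqrt_le_sqrt
    have e1 : T * (2 * δ) ^ n * h ≤ V := by
      calc T * (2 * δ) ^ n * h ≤ 1 * (2 * δ) ^ n * h := by gcongr
        _ = V := by rw [hV]; ring
    gcongr
  have k5 : m ≤ A * I + B * Real.sqrt (I * V) := by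
    refine k1.trans ?_
    gcongr
  have k6 : c1 ≤ I := by
    by_contra hc
    push Not at hc
    have j1 : I < m / (2 * (A + 1)) := hc.trans_le (min_le_left _ _)
    have j2 : I < (m / 2) ^ 2 / (B ^ 2 * V + 1) := hc.trans_le (min_le_right _ _)
    rw [lt_div_iff₀ (by positivity)] at j1 j2
    have j3 : A * I ≤ m / 2 := by nlinarith
    have j4 : B * Real.sqrt (I * V) < m / 2 := by
      have j5 : (B * Real.sqrt (I * V)) ^ 2 < (m / 2) ^ 2 := by
        rw [mul_pow, Real.sq_sqrt (by positivity)]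
        nlinarith
      exact lt_of_pow_lt_pow_left₀ 2 (by positivity) j5
    linarith
  rw [div_le_iff₀ (by positivity)]
  linarith

end Pool.Agent.W5h42.KF
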