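import Pool.Agent.W5h42.KF.Defs

set_option autoImplicit false

/-! Weak trajectories with integrable vorticity. -/

open MeasureTheory Set

namespace Pool.Agent.W5h42.KF

/-- `W` is the rotation tensor `∇u - (∇u)ᵀ` of `u` in the box `|x_i| < δ`, `0 < y - γ x < h`
(`W v = ∂_v u - ∇ (u · v)` for constant `v`, and `W u = u · ∇ u - ∇ |u|² / 2`), in the sense of
distributions, and `u`, `W` and `W u` are integrable -/
structure IsRotation (n : ℕ) (γ : (Fin n → ℝ) → ℝ) (δ h T : ℝ) (u : ST n → Z n)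
    (W : ST n → Z n →L[ℝ] Z n) : Prop where
  meas_u : AEStronglyMeasurable u (volume.restrict (dom n T δ 0 h))
  meas_W : AEStronglyMeasurable W (volume.restrict (dom n T δ 0 h))
  int_u : IntegrableOn (fun p => ‖u p‖) (dom n T δ 0 h)
  int_W : IntegrableOn (fun p => ‖W p‖) (dom n T δ 0 h)
  int_Wu : IntegrableOn (fun p => ‖W p‖ * ‖u p‖) (dom n T δ 0 h)
  rotation : ∀ (θ : ℝ → ℝ) (ψ : Z n → ℝ), Continuous θ → IsTest (box γ δ 0 h) ψ →
    ∀ v w : Z n, ∫ p in dom n T δ 0 h, θ p.1.1 * (ψ (lift γ (pos p)) * dot (W p v) w) =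
      ∫ p in dom n T δ 0 h, θ p.1.1 *
        (dot (u p) v * pd w ψ (lift γ (pos p)) - dot (u p) w * pd v ψ (lift γ (pos p)))

/-- `u` is the velocity of a trajectory with the rotation tensor `W`, `k` is a bound for the block of
`W` with the indices `1, ..., n` (`0` for planar flows, the absolute value of the component `ω_y` of
the vorticity in three dimensions), `k u` is integrable, and the Navier-Stokes equations with unit
viscosity hold in the form `u_t + W u + ∇ P = Δ u`, `P = p + |u|² / 2`, on `[0, T]`, with initial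
value `u0` and final value `uT`, tested with the products `θ(t) φ(x, y)` of smooth functions of the time
and solenoidal fields with compact support in the box. -/
structure LambTraj (n : ℕ) (γ : (Fin n → ℝ) → ℝ) (δ h T : ℝ) (u : ST n → Z n)
    (W : ST n → Z n →L[ℝ] Z n) (k : ST n → ℝ) (u0 uT : Z n → Z n) : Prop where
  rot : IsRotation n γ δ h T u W
  int_ku : IntegrableOn (fun p => k p * ‖u p‖) (dom n T δ 0 h)
  block : ∀ᵐ p : ST n, p ∈ dom n T δ 0 h →
    ∀ v : Fin n → ℝ, ‖(W p (v, 0)).1‖ ≤ k p * ‖v‖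
  momentum : ∀ (θ : ℝ → ℝ) (φ : Z n → Z n), ContDiff ℝ (⊤ : ℕ∞) θ → IsTest (box γ δ 0 h) φ →
    (∀ z, div φ z = 0) →
    θ T * (∫ z in layer n δ 0 h, dot (uT z) (φ (lift γ z))) -
        θ 0 * ∫ z in layer n δ 0 h, dot (u0 z) (φ (lift γ z)) =
      ∫ p in dom n T δ 0 h, (deriv θ p.1.1 * dot (u p) (φ (lift γ (pos p))) +
        θ p.1.1 * (dot (u p) (lap φ (lift γ (pos p))) -
          dot (W p (u p)) (φ (lift γ (pos p)))))

/-- the integral of `(|W| |u_y| + k |u|) / h + |W| |u| / δ` over the time and the outer half of the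
layer -/
noncomputable def transport (n : ℕ) (δ h T : ℝ) (u : ST n → Z n) (W : ST n → Z n →L[ℝ] Z n)
    (k : ST n → ℝ) : ℝ :=
  ∫ p in dom n T δ (h / 2) h,
    ((‖W p‖ * |(u p).2| + k p * ‖u p‖) / h + ‖W p‖ * ‖u p‖ / δ)

/-- the integral of `|W| / h²` over the time and the outer half of the layer -/
noncomputable def viscous (n : ℕ) (δ h T : ℝ) (W : ST n → Z n →L[ℝ] Z n) : ℝ :=
  ∫ p in dom n T δ (h / 2) h, ‖W p‖ / h ^ 2

/-- the integral of `|g|` over the time and the layer -/
noncomputable def total (n : ℕ) (δ h T : ℝ) (g : ST n → Z n) : ℝ :=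
  ∫ p in dom n T δ 0 h, ‖g p‖

/-- the integral of `|g_y|` over the time and the layer -/
noncomputable def totalY (n : ℕ) (δ h T : ℝ) (g : ST n → Z n) : ℝ :=
  ∫ p in dom n T δ 0 h, |(g p).2|

end Pool.Agent.W5h42.KF
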