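import Pool.Agent.W5h42.KF.Main
import Pool.Agent.W5h42.KF.RotDefs

set_option autoImplicit false

/-! Trajectories with integrable vorticity. -/

open MeasureTheory Set

namespace Pool.Agent.W5h42.KF

variable {n : ℕ}

theorem dot_ex' (v : Z n) (i : Fin n) : dot v (ex i) = v.1 i := by
  unfold dot ex
  simp only [mul_zero, add_zero]
  rw [sum_single', mul_one]

theorem dot_ey' (v : Z n) : dot v (ey : Z n) = v.2 := by
  unfold dot ey
  simp

theorem dot_rot (i : Fin n) (f : Z n → ℝ) (v z : Z n) :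
    dot v (rot i f z) = dot v (ex i) * pd ey f z - dot v ey * pd (ex i) f z := by
  rw [dot_ex', dot_ey']
  unfold dot rot
  simp only
  rw [sum_single']
  ring

theorem int_W' {γ : (Fin n → ℝ) → ℝ} {δ h T : ℝ} {u : ST n → Z n} {W : ST n → Z n →L[ℝ] Z n}
    (R : IsRotation n γ δ h T u W) (hγ : Continuous γ) {θ : ℝ → ℝ}
    (hθ : Continuous θ) {φ : Z n → Z n} (hφ : IsTest (box γ δ 0 h) φ) :
    IntegrableOn (fun p => θ p.1.1 * dot (W p (u p)) (φ (lift γ (pos p)))) (dom n T δ 0 h) := by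
  obtain ⟨C1, hC1, h1⟩ := bound_on hθ T
  obtain ⟨C2, hC2, h2⟩ := hφ.bound
  have hms : ∀ᵐ p ∂(volume.restrict (dom n T δ 0 h)), p ∈ dom n T δ 0 h :=
    ae_restrict_mem (measurableSet_dom T δ _ _)
  have m1 : AEStronglyMeasurable (fun p : ST n => θ p.1.1) (volume.restrict (dom n T δ 0 h)) := by
    have : Continuous fun p : ST n => θ p.1.1 := hθ.comp (by fun_prop)
    exact this.aestronglyMeasurable
  have m2 : AEStronglyMeasurable (fun p : ST n => φ (lift γ (pos p)))
      (volume.restrict (dom n T δ 0 h)) :=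
    (hφ.smooth.continuous.comp (continuous_lift_pos hγ)).aestronglyMeasurable
  have m0 : AEStronglyMeasurable (fun p => W p (u p)) (volume.restrict (dom n T δ 0 h)) :=
    isBoundedBilinearMap_apply.continuous.comp_aestronglyMeasurable (R.meas_W.prodMk R.meas_u)
  have m3 : AEStronglyMeasurable (fun p : ST n => dot (W p (u p)) (φ (lift γ (pos p))))
      (volume.restrict (dom n T δ 0 h)) := continuous_dot.comp_aestronglyMeasurable (m0.prodMk m2)
  refine Integrable.mono' (R.int_Wu.const_mul (C1 * ((n + 1) * C2))) (m1.mul m3) ?_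
  filter_upwards [hms] with p hp
  have hp1 : |θ p.1.1| ≤ C1 := h1 _ hp.1.1
  rw [Real.norm_eq_abs, abs_mul]
  have hp2 : |dot (W p (u p)) (φ (lift γ (pos p)))| ≤ (n + 1) * ((‖W p‖ * ‖u p‖) * C2) := by
    refine (abs_dot_le _ _).trans ?_
    gcongr
    · exact (W p).le_opNorm _
    · exact h2 _
  calc |θ p.1.1| * |dot (W p (u p)) (φ (lift γ (pos p)))| ≤
        C1 * ((n + 1) * ((‖W p‖ * ‖u p‖) * C2)) := mul_le_mul hp1 hp2 (abs_nonneg _) hC1
    _ = C1 * ((n + 1) * C2) * (‖W p‖ * ‖u p‖) := by ring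

/-- the equation tested with the finite sum -/
theorem teleW {γ : (Fin n → ℝ) → ℝ} {δ h T : ℝ} {u : ST n → Z n} {W : ST n → Z n →L[ℝ] Z n}
    {k : ST n → ℝ} {u0 : Z n → Z n}
    (L : LambTraj n γ δ h T u W k u0 0) (hγ : Continuous γ) {φ : ℕ → Z n → Z n}
    (hφ : ∀ j, IsTest (box γ δ 0 h) (φ j)) (hdiv : ∀ j z, div (φ j) z = 0)
    (hstep : ∀ j z, φ (j + 1) z = lap (φ j) z) (m : ℕ) :
    -∫ z in layer n δ 0 h, dot (u0 z) (φ 0 (lift γ z)) =
      ∑ j ∈ Finset.range (m + 1),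
        -(∫ p in dom n T δ 0 h, th j p.1.1 * dot (W p (u p)) (φ j (lift γ (pos p)))) +
      ∫ p in dom n T δ 0 h, th m p.1.1 * dot (u p) (φ (m + 1) (lift γ (pos p))) := by
  have iA : ∀ j, IntegrableOn
      (fun p => th j p.1.1 * dot (W p (u p)) (φ j (lift γ (pos p)))) (dom n T δ 0 h) :=
    fun j => int_W' L.rot hγ (th_contDiff j).continuous (hφ j)
  have iB : ∀ i j, IntegrableOn
      (fun p => th i p.1.1 * dot (u p) (φ j (lift γ (pos p)))) (dom n T δ 0 h) :=
    fun i j => int_B L.rot.meas_u L.rot.int_u hγ (th_contDiff i).continuous (hφ j)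
  have h0 : ∀ j, ∫ z in layer n δ 0 h, dot ((0 : Z n → Z n) z) (φ j (lift γ z)) = 0 := by
    intro j
    have h3 : ∀ z, dot ((0 : Z n → Z n) z) (φ j (lift γ z)) = 0 := fun z => by simp [dot]
    simp only [h3, integral_zero]
  apply tele_sum (α := fun j => -∫ p in dom n T δ 0 h,
      th j p.1.1 * dot (W p (u p)) (φ j (lift γ (pos p))))
    (β := fun m => ∫ p in dom n T δ 0 h, th m p.1.1 * dot (u p) (φ (m + 1) (lift γ (pos p))))
  · have hm := L.momentum (th 0) (φ 0) (th_contDiff 0) (hφ 0) (hdiv 0)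
    rw [h0, mul_zero, zero_sub, th_zero, one_mul] at hm
    have jn : IntegrableOn (fun p => -(th 0 p.1.1 * dot (W p (u p)) (φ 0 (lift γ (pos p)))))
      (dom n T δ 0 h) := (iA 0).neg
    rw [hm, ← integral_neg, ← integral_add jn (iB 0 1)]
    congr 1
    funext p
    rw [deriv_th_zero, hstep]
    ring
  · intro j
    have hm := L.momentum (th (j + 1)) (φ (j + 1)) (th_contDiff _) (hφ _) (hdiv _)
    rw [h0, mul_zero, th_at_zero, zero_mul, sub_zero] at hm
    have j1 : IntegrableOn (fun p => -(th j p.1.1 * dot (u p) (φ (j + 1) (lift γ (pos p)))))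
      (dom n T δ 0 h) := (iB j (j + 1)).neg
    have j3 : IntegrableOn (fun p =>
        -(th (j + 1) p.1.1 * dot (W p (u p)) (φ (j + 1) (lift γ (pos p)))))
      (dom n T δ 0 h) := (iA (j + 1)).neg
    have e1 : -(∫ p in dom n T δ 0 h, th j p.1.1 * dot (u p) (φ (j + 1) (lift γ (pos p)))) +
        -(∫ p in dom n T δ 0 h,
          th (j + 1) p.1.1 * dot (W p (u p)) (φ (j + 1) (lift γ (pos p)))) +
        (∫ p in dom n T δ 0 h,
          th (j + 1) p.1.1 * dot (u p) (φ (j + 1 + 1) (lift γ (pos p)))) =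
        ∫ p in dom n T δ 0 h, (-(th j p.1.1 * dot (u p) (φ (j + 1) (lift γ (pos p)))) +
          -(th (j + 1) p.1.1 * dot (W p (u p)) (φ (j + 1) (lift γ (pos p)))) +
          th (j + 1) p.1.1 * dot (u p) (φ (j + 1 + 1) (lift γ (pos p)))) := by
      have j2 : IntegrableOn (fun p => -(th j p.1.1 * dot (u p) (φ (j + 1) (lift γ (pos p)))) +
          -(th (j + 1) p.1.1 * dot (W p (u p)) (φ (j + 1) (lift γ (pos p)))))
        (dom n T δ 0 h) := j1.add j3
      rw [integral_add j2 (iB _ _), integral_add j1 j3, integral_neg, integral_neg]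
    rw [e1]
    refine hm.trans ?_
    congr 1
    funext p
    rw [deriv_th_succ, hstep (j + 1)]
    ring

/-- the inequality -/
theorem vort (n m : ℕ) : ∃ c : ℝ, 0 < c ∧ ∀ (i : Fin n) {Γ : (Fin n → ℝ) → ℝ} {δ h T a : ℝ},
    Profile m Γ → 0 < T → 0 < h → h ≤ δ → 0 < a → ∀ {u : ST n → Z n}
    {W : ST n → Z n →L[ℝ] Z n} {k : ST n → ℝ} {u0 : Z n → Z n},
    LambTraj n (wall Γ δ h) δ h T u W k u0 0 → VortGE (wall Γ δ h) δ h i a u0 →
    c * (a * h * δ ^ n) ≤ (1 + T / h ^ 2) ^ m * transport n δ h T u W k +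
      (T / h ^ 2) ^ m * viscous n δ h T W := by
  obtain ⟨C, hC1, hC⟩ := sbj_bounds n m
  have hC0 : 0 < C := lt_of_lt_of_le zero_lt_one hC1
  set c0 : ℝ := (1 / 8) ^ (n + 1) with hc0
  have hc0p : 0 < c0 := by positivity
  set N : ℝ := (n : ℝ) + 1 with hN
  have hN1 : 1 ≤ N := by
    rw [hN]
    have : (0 : ℝ) ≤ n := Nat.cast_nonneg n
    linarith
  have hNp : 0 < N := by positivity
  set M : ℝ := C * N ^ m * (((m : ℝ) + 1) + N) with hM
  have hMp : 0 < M := by positivity
  refine ⟨c0 / M, by positivity, ?_⟩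
  intro i Γ δ h T a hΓ hT hh hhδ ha u W k u0 L hv
  have hδ : 0 < δ := hh.trans_le hhδ
  have hψ := sb_test hΓ.smooth hδ hh
  have hψj := fun j => sbj_test hΓ.smooth hδ hh j
  set γ := wall Γ δ h with hγ
  have hγc : Continuous γ := by
    rw [hγ]
    unfold wall
    have := hΓ.smooth.continuous
    fun_prop
  have hbox : box γ δ (h / 2) h ⊆ box γ δ 0 h := fun z hz =>
    (prod_mono le_rfl (Ioo_subset_Ioo (by positivity) le_rfl) :
      layer n δ (h / 2) h ⊆ layer n δ 0 h) hz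
  have hsub : dom n T δ (h / 2) h ⊆ dom n T δ 0 h := dom_mono (by positivity) le_rfl
  set φ : ℕ → Z n → Z n := fun j => rot i (sbj Γ hδ hh j) with hφ
  have hφt : ∀ j, IsTest (box γ δ (h / 2) h) (φ j) := fun j => (isTest_rot i (hψj j)).1
  have hφd : ∀ j z, div (φ j) z = 0 := fun j => (isTest_rot i (hψj j)).2.1
  have hφs : ∀ j z, φ (j + 1) z = lap (φ j) z := by
    intro j z
    simp only [hφ]
    rw [lap_rot i (hψj j).smooth, sbj_succ hΓ.smooth]
  have hφ' : ∀ j, IsTest (box γ δ 0 h) (φ j) := fun j =>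
    ⟨(hφt j).smooth, (hφt j).compact, (hφt j).supp.trans hbox⟩
  have hψ' : ∀ j, IsTest (box γ δ 0 h) (sbj Γ hδ hh j) := fun j =>
    ⟨(hψj j).smooth, (hψj j).compact, (hψj j).supp.trans hbox⟩
  have ht := teleW L hγc hφ' hφd hφs m
  set x : ℝ := T / h ^ 2 with hx
  have hx0 : 0 ≤ x := by positivity
  have hcoef : ∀ j : ℕ, T ^ j * ((N * h⁻¹ ^ 2) ^ j * C) = C * (N ^ j * x ^ j) := by
    intro j
    rw [hx, mul_pow, div_pow, inv_pow, inv_pow]
    rw [div_eq_mul_inv]
    ring
  have hms' : ∀ p ∈ dom n T δ (h / 2) h, 0 ≤ p.1.1 ∧ p.1.1 ≤ T := fun p hp =>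
    ⟨hp.1.1.1.le, hp.1.1.2.le⟩
  have hms : ∀ᵐ p ∂(volume.restrict (dom n T δ (h / 2) h)), p ∈ dom n T δ (h / 2) h :=
    ae_restrict_mem (measurableSet_dom T δ _ _)
  have hbd : ∀ᵐ p ∂(volume.restrict (dom n T δ (h / 2) h)), p ∈ dom n T δ 0 h →
      ∀ v : Fin n → ℝ, ‖(W p (v, 0)).1‖ ≤ k p * ‖v‖ := ae_restrict_of_ae L.block
  have hu : AEStronglyMeasurable u (volume.restrict (dom n T δ (h / 2) h)) :=
    L.rot.meas_u.mono_measure (Measure.restrict_mono hsub le_rfl)
  have hW : AEStronglyMeasurable W (volume.restrict (dom n T δ (h / 2) h)) :=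
    L.rot.meas_W.mono_measure (Measure.restrict_mono hsub le_rfl)
  have jW := L.rot.int_W.mono_set hsub
  have jWu := L.rot.int_Wu.mono_set hsub
  have jku := L.int_ku.mono_set hsub
  have jW2 : IntegrableOn (fun p => ‖W p‖ * |(u p).2|) (dom n T δ (h / 2) h) := by
    refine Integrable.mono' jWu
      (hW.norm.mul ((continuous_snd.comp_aestronglyMeasurable hu).norm))
      (Filter.Eventually.of_forall fun p => ?_)
    rw [Real.norm_eq_abs, abs_mul, abs_abs, abs_of_nonneg (norm_nonneg _)]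
    exact mul_le_mul_of_nonneg_left (norm_snd_le (u p)) (norm_nonneg _)
  have jG1 : IntegrableOn (fun p => (‖W p‖ * |(u p).2| + k p * ‖u p‖) / h +
      ‖W p‖ * ‖u p‖ / δ) (dom n T δ (h / 2) h) :=
    ((jW2.add jku).div_const h).add (jWu.div_const δ)
  have jG2 : IntegrableOn (fun p => ‖W p‖ / h ^ 2) (dom n T δ (h / 2) h) := jW.div_const _
  -- pointwise bounds
  have hk : ∀ᵐ p ∂(volume.restrict (dom n T δ (h / 2) h)), 0 ≤ k p := by
    filter_upwards [hms, hbd] with p hp1 hp2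
    have h1 := hp2 (hsub hp1) (Pi.single i 1)
    have h2 : ‖(Pi.single i (1 : ℝ) : Fin n → ℝ)‖ = 1 := by simp [Pi.norm_single]
    rw [h2, mul_one] at h1
    exact (norm_nonneg _).trans h1
  have hG1 : 0 ≤ transport n δ h T u W k := by
    unfold transport
    apply integral_nonneg_of_ae
    filter_upwards [hk] with p hp
    simp only [Pi.zero_apply]
    positivity
  have hG2 : 0 ≤ viscous n δ h T W := by
    unfold viscous
    apply integral_nonneg
    intro p
    simp only [Pi.zero_apply]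
    positivity
  have hA : ∀ j ∈ Finset.range (m + 1), |-(∫ p in dom n T δ 0 h,
      th j p.1.1 * dot (W p (u p)) (φ j (lift γ (pos p))))| ≤
      C * N ^ m * (1 + x) ^ m * transport n δ h T u W k := by
    intro j hj
    have hjm : j ≤ m := Nat.lt_succ_iff.1 (Finset.mem_range.1 hj)
    obtain ⟨_, _, p3, p4, _⟩ := hC Γ hΓ hδ hh hhδ i j hjm
    set Cj : ℝ := (N * h⁻¹ ^ 2) ^ j * C with hCj
    have hCj0 : 0 ≤ Cj := by positivity
    have e0 : ∫ p in dom n T δ 0 h, th j p.1.1 * dot (W p (u p)) (φ j (lift γ (pos p))) =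
        ∫ p in dom n T δ (h / 2) h, th j p.1.1 * dot (W p (u p)) (φ j (lift γ (pos p))) := by
      apply setIntegral_eq_of_subset_of_forall_sdiff_eq_zero (measurableSet_dom T δ 0 h) hsub
      intro p hp
      obtain ⟨k1, _, _⟩ := test_zero (hφt j) (lift_pos_mem hp)
      rw [k1]
      simp [dot]
    rw [abs_neg, e0]
    have b1 : ∀ᵐ p ∂(volume.restrict (dom n T δ (h / 2) h)),
        ‖th j p.1.1 * dot (W p (u p)) (φ j (lift γ (pos p)))‖ ≤ (T ^ j * Cj) *
          ((‖W p‖ * |(u p).2| + k p * ‖u p‖) / h + ‖W p‖ * ‖u p‖ / δ) := by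
      filter_upwards [hms, hbd, hk] with p hp1 hp2 hk0
      have hp3 := hp2 (hsub hp1)
      have h1 : dot (W p (u p)) (φ j (lift γ (pos p))) =
          (W p (u p)).1 i * pd ey (sbj Γ hδ hh j) (lift γ (pos p)) -
          (W p (u p)).2 * pd (ex i) (sbj Γ hδ hh j) (lift γ (pos p)) := by
        simp only [hφ]
        rw [dot_rot, dot_ex', dot_ey']
      have h2 : |(W p (u p)).1 i| ≤ ‖W p‖ * |(u p).2| + k p * ‖u p‖ := by
        have e3 : u p = ((u p).1, 0) + (u p).2 • (ey : Z n) := by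
          unfold ey
          apply Prod.ext
          · simp
          · simp
        have e4 : W p (u p) = W p ((u p).1, 0) + (u p).2 • W p ey := by
          conv_lhs => rw [e3]
          rw [map_add, map_smul]
        have e5 : |(W p (u p)).1 i| ≤ ‖(W p ((u p).1, 0)).1‖ + |(u p).2| * ‖W p ey‖ := by
          rw [e4]
          have e6 : (W p ((u p).1, 0) + (u p).2 • W p ey).1 i =
              (W p ((u p).1, 0)).1 i + (u p).2 * (W p ey).1 i := by simp
          rw [e6]
          have e61 : |(W p ((u p).1, 0)).1 i| ≤ ‖(W p ((u p).1, 0)).1‖ :=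
            norm_le_pi_norm (W p ((u p).1, 0)).1 i
          have e62 : |(W p ey).1 i| ≤ ‖W p ey‖ :=
            (norm_le_pi_norm (W p ey).1 i).trans (norm_fst_le (W p ey))
          refine (abs_add_le _ _).trans (add_le_add e61 ?_)
          rw [abs_mul]
          exact mul_le_mul_of_nonneg_left e62 (abs_nonneg _)
        have e7 : ‖W p ey‖ ≤ ‖W p‖ := by
          refine ((W p).le_opNorm _).trans ?_
          calc ‖W p‖ * ‖(ey : Z n)‖ ≤ ‖W p‖ * 1 :=
                mul_le_mul_of_nonneg_left norm_ey_le (norm_nonneg _)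
            _ = ‖W p‖ := mul_one _
        have e8 : ‖(W p ((u p).1, 0)).1‖ ≤ k p * ‖u p‖ :=
          (hp3 (u p).1).trans (mul_le_mul_of_nonneg_left (norm_fst_le (u p)) hk0)
        have e9 : |(u p).2| * ‖W p ey‖ ≤ |(u p).2| * ‖W p‖ :=
          mul_le_mul_of_nonneg_left e7 (abs_nonneg _)
        linarith
      have h3 : |(W p (u p)).2| ≤ ‖W p‖ * ‖u p‖ :=
        (norm_snd_le (W p (u p))).trans ((W p).le_opNorm _)
      set Q1 := ‖W p‖ * |(u p).2| + k p * ‖u p‖ with hQ1
      set Q2 := ‖W p‖ * ‖u p‖ with hQ2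
      have hQ1p : 0 ≤ Q1 := (abs_nonneg _).trans h2
      have hQ2p : 0 ≤ Q2 := (abs_nonneg _).trans h3
      have h4 : |dot (W p (u p)) (φ j (lift γ (pos p)))| ≤
          Q1 * (Cj * h⁻¹) + Q2 * (Cj * δ⁻¹) := by
        rw [h1]
        refine (abs_sub _ _).trans ?_
        rw [abs_mul, abs_mul]
        exact add_le_add (mul_le_mul h2 (p3 _) (abs_nonneg _) hQ1p)
          (mul_le_mul h3 (p4 _) (abs_nonneg _) hQ2p)
      obtain ⟨q1, q2⟩ := hms' p hp1
      rw [Real.norm_eq_abs, abs_mul]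
      have q3 := abs_th_le j q1 q2
      calc |th j p.1.1| * |dot (W p (u p)) (φ j (lift γ (pos p)))| ≤
            T ^ j * (Q1 * (Cj * h⁻¹) + Q2 * (Cj * δ⁻¹)) :=
            mul_le_mul q3 h4 (abs_nonneg _) (by positivity)
        _ = (T ^ j * Cj) * (Q1 / h + Q2 / δ) := by
            rw [div_eq_mul_inv, div_eq_mul_inv]
            ring
    have b2 := norm_integral_le_of_norm_le (jG1.const_mul (T ^ j * Cj)) b1
    rw [Real.norm_eq_abs, integral_const_mul] at b2
    have b3 : |∫ p in dom n T δ (h / 2) h,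
        th j p.1.1 * dot (W p (u p)) (φ j (lift γ (pos p)))| ≤
        (T ^ j * Cj) * transport n δ h T u W k := b2
    refine b3.trans ?_
    rw [hCj, hcoef]
    have e2 : N ^ j ≤ N ^ m := pow_le_pow_right₀ hN1 hjm
    have e3 : x ^ j ≤ (1 + x) ^ m := by
      calc x ^ j ≤ (1 + x) ^ j := by gcongr; linarith
        _ ≤ (1 + x) ^ m := pow_le_pow_right₀ (by linarith) hjm
    have e4 : C * (N ^ j * x ^ j) ≤ C * N ^ m * (1 + x) ^ m := by
      calc C * (N ^ j * x ^ j) ≤ C * (N ^ m * (1 + x) ^ m) := by gcongr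
        _ = _ := by ring
    exact mul_le_mul_of_nonneg_right e4 hG1
  -- the viscous part
  have hB : |∫ p in dom n T δ 0 h, th m p.1.1 * dot (u p) (φ (m + 1) (lift γ (pos p)))| ≤
      C * N ^ m * N * (x ^ m * viscous n δ h T W) := by
    obtain ⟨_, _, _, _, p5⟩ := hC Γ hΓ hδ hh hhδ i m le_rfl
    set Cm : ℝ := (N * h⁻¹ ^ 2) ^ m * C with hCm
    have hCm0 : 0 ≤ Cm := by positivity
    have e3 : ∫ p in dom n T δ 0 h, th m p.1.1 * dot (u p) (φ (m + 1) (lift γ (pos p))) =
        ∫ p in dom n T δ (h / 2) h,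
          th m p.1.1 * (sbj Γ hδ hh (m + 1) (lift γ (pos p)) * dot (W p (ex i)) ey) := by
      have r1 := L.rot.rotation (th m) (sbj Γ hδ hh (m + 1)) (th_contDiff m).continuous
        (hψ' (m + 1)) (ex i) ey
      have r2 : ∫ p in dom n T δ 0 h,
          th m p.1.1 * (sbj Γ hδ hh (m + 1) (lift γ (pos p)) * dot (W p (ex i)) ey) =
          ∫ p in dom n T δ (h / 2) h,
          th m p.1.1 * (sbj Γ hδ hh (m + 1) (lift γ (pos p)) * dot (W p (ex i)) ey) := by
        apply setIntegral_eq_of_subset_of_forall_sdiff_eq_zero (measurableSet_dom T δ 0 h) hsub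
        intro p hp
        obtain ⟨k1, _, _⟩ := test_zero (hψj (m + 1)) (lift_pos_mem hp)
        rw [k1, zero_mul, mul_zero]
      rw [← r2, r1]
      congr 1
      funext p
      simp only [hφ]
      rw [dot_rot]
    rw [e3]
    have b1 : ∀ᵐ p ∂(volume.restrict (dom n T δ (h / 2) h)),
        ‖th m p.1.1 * (sbj Γ hδ hh (m + 1) (lift γ (pos p)) * dot (W p (ex i)) ey)‖ ≤
          (T ^ m * (N * Cm)) * (‖W p‖ / h ^ 2) := by
      filter_upwards [hms] with p hp1
      obtain ⟨q1, q2⟩ := hms' p hp1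
      have q3 := abs_th_le m q1 q2
      have h3 : |(W p (ex i)).2| ≤ ‖W p‖ := by
        refine (norm_snd_le (W p (ex i))).trans (((W p).le_opNorm _).trans ?_)
        calc ‖W p‖ * ‖(ex i : Z n)‖ ≤ ‖W p‖ * 1 :=
              mul_le_mul_of_nonneg_left (norm_ex_le i) (norm_nonneg _)
          _ = ‖W p‖ := mul_one _
      have h4 : |sbj Γ hδ hh (m + 1) (lift γ (pos p))| ≤ N * (Cm * h⁻¹ ^ 2) := by
        rw [sbj_succ hΓ.smooth]
        exact p5 _
      rw [Real.norm_eq_abs, abs_mul, abs_mul, dot_ey']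
      calc |th m p.1.1| * (|sbj Γ hδ hh (m + 1) (lift γ (pos p))| * |(W p (ex i)).2|) ≤
            T ^ m * ((N * (Cm * h⁻¹ ^ 2)) * ‖W p‖) := by
            apply mul_le_mul q3 _ (by positivity) (by positivity)
            exact mul_le_mul h4 h3 (abs_nonneg _) (by positivity)
        _ = (T ^ m * (N * Cm)) * (‖W p‖ / h ^ 2) := by
            rw [div_eq_mul_inv, inv_pow]
            ring
    have b2 := norm_integral_le_of_norm_le (jG2.const_mul (T ^ m * (N * Cm))) b1
    rw [Real.norm_eq_abs, integral_const_mul] at b2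
    have b3 : |∫ p in dom n T δ (h / 2) h,
        th m p.1.1 * (sbj Γ hδ hh (m + 1) (lift γ (pos p)) * dot (W p (ex i)) ey)| ≤
        (T ^ m * (N * Cm)) * viscous n δ h T W := b2
    refine b3.trans (le_of_eq ?_)
    have e5 : T ^ m * (N * Cm) = N * (T ^ m * ((N * h⁻¹ ^ 2) ^ m * C)) := by
      rw [hCm]
      ring
    rw [e5, hcoef]
    ring
  -- conclusion
  have k2 : a * (c0 * (h * δ ^ n)) ≤
      |∫ z in layer n δ 0 h, dot (u0 z) (φ 0 (lift γ z))| := by
    calc a * (c0 * (h * δ ^ n)) ≤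
          a * ∫ z in layer n δ 0 h, sb Γ hδ hh (lift (wall Γ δ h) z) := by
          gcongr
          exact sb_integral Γ hδ hh
      _ ≤ ∫ z in layer n δ 0 h, dot (u0 z) (rot i (sb Γ hδ hh) (lift (wall Γ δ h) z)) :=
          hv _ ⟨hψ.smooth, hψ.compact, hψ.supp.trans hbox⟩ (sb_nonneg Γ hδ hh)
      _ ≤ _ := le_abs_self _
  have k5 : |∫ z in layer n δ 0 h, dot (u0 z) (φ 0 (lift γ z))| ≤
      ((m : ℝ) + 1) * (C * N ^ m * (1 + x) ^ m * transport n δ h T u W k) +
        C * N ^ m * N * (x ^ m * viscous n δ h T W) := by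
    rw [← abs_neg, ht]
    refine (abs_add_le _ _).trans (add_le_add ?_ hB)
    refine (Finset.abs_sum_le_sum_abs _ _).trans ((Finset.sum_le_sum hA).trans ?_)
    rw [Finset.sum_const, Finset.card_range, nsmul_eq_mul]
    push_cast
    exact le_rfl
  have k4 : a * (c0 * (h * δ ^ n)) ≤ M * ((1 + x) ^ m * transport n δ h T u W k +
      x ^ m * viscous n δ h T W) := by
    refine k2.trans (k5.trans ?_)
    set G1 := transport n δ h T u W k with hG1d
    set G2 := viscous n δ h T W with hG2d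
    have q3 : 0 ≤ C * N ^ m * N * ((1 + x) ^ m * G1) := by positivity
    have q4 : 0 ≤ C * N ^ m * ((m : ℝ) + 1) * (x ^ m * G2) := by positivity
    have q5 : M * ((1 + x) ^ m * G1 + x ^ m * G2) =
        ((m : ℝ) + 1) * (C * N ^ m * (1 + x) ^ m * G1) + C * N ^ m * N * (x ^ m * G2) +
        C * N ^ m * N * ((1 + x) ^ m * G1) + C * N ^ m * ((m : ℝ) + 1) * (x ^ m * G2) := by
      rw [hM]
      ring
    rw [q5]
    linarith
  have e8 : c0 / M * (a * h * δ ^ n) = (a * (c0 * (h * δ ^ n))) / M := by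
    field_simp
  rw [e8, div_le_iff₀ hMp]
  linarith

end Pool.Agent.W5h42.KF
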