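import Pool.Agent.W5h42.KF.Core

set_option autoImplicit false

/-! The weak formulation tested with `∑ (-t)^j / j! Δ^j φ`. -/

open MeasureTheory Set

namespace Pool.Agent.W5h42.KF

variable {n : ℕ}

/-- `(-t)^j / j!` -/
noncomputable def th (j : ℕ) (t : ℝ) : ℝ := (-t) ^ j / j.factorial

theorem th_contDiff (j : ℕ) : ContDiff ℝ (⊤ : ℕ∞) (th j) := by
  unfold th
  fun_prop

theorem th_zero (t : ℝ) : th 0 t = 1 := by simp [th]

theorem deriv_th_zero (t : ℝ) : deriv (th 0) t = 0 := by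
  have h1 : th 0 = fun _ => (1 : ℝ) := by
    funext t
    exact th_zero t
  rw [h1]
  exact deriv_const t 1

theorem deriv_th_succ (j : ℕ) (t : ℝ) : deriv (th (j + 1)) t = -th j t := by
  have h1 : HasDerivAt (fun t : ℝ => (-t) ^ (j + 1) / ((j + 1).factorial : ℝ))
      (((j + 1 : ℕ) : ℝ) * (-t) ^ j * (-1) / ((j + 1).factorial : ℝ)) t := by
    have h2 := ((hasDerivAt_id t).neg.pow (j + 1)).div_const ((j + 1).factorial : ℝ)
    simpa using h2
  have h3 : deriv (th (j + 1)) t = ((j + 1 : ℕ) : ℝ) * (-t) ^ j * (-1) / ((j + 1).factorial : ℝ) :=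
    h1.deriv
  rw [h3]
  unfold th
  have h4 : ((j + 1).factorial : ℝ) = ((j + 1 : ℕ) : ℝ) * (j.factorial : ℝ) := by
    rw [Nat.factorial_succ]
    push_cast
    ring
  have h5 : (j.factorial : ℝ) ≠ 0 := by exact_mod_cast j.factorial_ne_zero
  have h6 : ((j + 1 : ℕ) : ℝ) ≠ 0 := by positivity
  rw [h4]
  field_simp

theorem th_at_zero (j : ℕ) : th (j + 1) 0 = 0 := by simp [th]

theorem abs_th_le (j : ℕ) {t T : ℝ} (h0 : 0 ≤ t) (h1 : t ≤ T) : |th j t| ≤ T ^ j := by
  unfold th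
  rw [abs_div, abs_pow, abs_neg, abs_of_nonneg h0, abs_of_nonneg (by positivity : (0 : ℝ) ≤
    (j.factorial : ℝ))]
  have h2 : (1 : ℝ) ≤ j.factorial := by exact_mod_cast Nat.one_le_iff_ne_zero.2 j.factorial_ne_zero
  calc t ^ j / (j.factorial : ℝ) ≤ t ^ j / 1 := by gcongr
    _ = t ^ j := div_one _
    _ ≤ T ^ j := by gcongr

theorem continuous_dot : Continuous fun q : Z n × Z n => dot q.1 q.2 := by
  unfold dot
  fun_prop

theorem continuous_lift_pos {γ : (Fin n → ℝ) → ℝ} (hγ : Continuous γ) :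
    Continuous fun p : ST n => lift γ (pos p) := by
  unfold lift pos
  fun_prop

theorem bound_on {θ : ℝ → ℝ} (hθ : Continuous θ) (T : ℝ) :
    ∃ C : ℝ, 0 ≤ C ∧ ∀ t ∈ Ioo 0 T, |θ t| ≤ C := by
  obtain ⟨C, hC⟩ := isCompact_Icc.exists_bound_of_continuousOn (s := Icc 0 T) hθ.continuousOn
  exact ⟨max C 0, le_max_right _ _, fun t ht => (hC t ⟨ht.1.le, ht.2.le⟩).trans (le_max_left _ _)⟩

section
variable {γ : (Fin n → ℝ) → ℝ} {δ h T : ℝ} {u : ST n → Z n}

theorem int_B (mu : AEStronglyMeasurable u (volume.restrict (dom n T δ 0 h)))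
    (iu : IntegrableOn (fun p => ‖u p‖) (dom n T δ 0 h)) (hγ : Continuous γ) {θ : ℝ → ℝ}
    (hθ : Continuous θ) {φ : Z n → Z n} (hφ : IsTest (box γ δ 0 h) φ) :
    IntegrableOn (fun p => θ p.1.1 * dot (u p) (φ (lift γ (pos p)))) (dom n T δ 0 h) := by
  obtain ⟨C1, hC1, h1⟩ := bound_on hθ T
  obtain ⟨C2, hC2, h2⟩ := hφ.bound
  have hms : ∀ᵐ p ∂(volume.restrict (dom n T δ 0 h)), p ∈ dom n T δ 0 h :=
    ae_restrict_mem (measurableSet_dom T δ _ _)
  have m1 : AEStronglyMeasurable (fun p : ST n => θ p.1.1) (volume.restrict (dom n T δ 0 h)) := by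
    have : Continuous fun p : ST n => θ p.1.1 := hθ.comp (by fun_prop)
    exact this.aestronglyMeasurable
  have m2 : AEStronglyMeasurable (fun p : ST n => φ (lift γ (pos p)))
      (volume.restrict (dom n T δ 0 h)) :=
    (hφ.smooth.continuous.comp (continuous_lift_pos hγ)).aestronglyMeasurable
  have m3 : AEStronglyMeasurable (fun p : ST n => dot (u p) (φ (lift γ (pos p))))
      (volume.restrict (dom n T δ 0 h)) := continuous_dot.comp_aestronglyMeasurable (mu.prodMk m2)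
  refine Integrable.mono' (iu.const_mul (C1 * ((n + 1) * C2))) (m1.mul m3) ?_
  filter_upwards [hms] with p hp
  have hp1 : |θ p.1.1| ≤ C1 := h1 _ hp.1.1
  rw [Real.norm_eq_abs, abs_mul]
  have hp2 : |dot (u p) (φ (lift γ (pos p)))| ≤ (n + 1) * (‖u p‖ * C2) := by
    refine (abs_dot_le _ _).trans ?_
    gcongr
    exact h2 _
  calc |θ p.1.1| * |dot (u p) (φ (lift γ (pos p)))| ≤ C1 * ((n + 1) * (‖u p‖ * C2)) :=
        mul_le_mul hp1 hp2 (abs_nonneg _) hC1
    _ = C1 * ((n + 1) * C2) * ‖u p‖ := by ring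

theorem int_A (mu : AEStronglyMeasurable u (volume.restrict (dom n T δ 0 h)))
    (iu : IntegrableOn (fun p => dot (u p) (u p)) (dom n T δ 0 h)) (hγ : Continuous γ) {θ : ℝ → ℝ}
    (hθ : Continuous θ) {φ : Z n → Z n} (hφ : IsTest (box γ δ 0 h) φ) :
    IntegrableOn (fun p => θ p.1.1 * dot (u p) (pd (u p) φ (lift γ (pos p))))
      (dom n T δ 0 h) := by
  obtain ⟨C1, hC1, h1⟩ := bound_on hθ T
  have hcf : Continuous (fderiv ℝ φ) :=
    (hφ.smooth.fderiv_right (m := (⊤ : ℕ∞)) (by simp)).continuous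
  obtain ⟨C2, l2⟩ := hcf.bounded_above_of_compact_support (hφ.compact.fderiv ℝ)
  have hC2 : 0 ≤ C2 := (norm_nonneg _).trans (l2 0)
  have hms : ∀ᵐ p ∂(volume.restrict (dom n T δ 0 h)), p ∈ dom n T δ 0 h :=
    ae_restrict_mem (measurableSet_dom T δ _ _)
  have m1 : AEStronglyMeasurable (fun p : ST n => θ p.1.1) (volume.restrict (dom n T δ 0 h)) := by
    have : Continuous fun p : ST n => θ p.1.1 := hθ.comp (by fun_prop)
    exact this.aestronglyMeasurable
  have m2 : AEStronglyMeasurable (fun p : ST n => fderiv ℝ φ (lift γ (pos p)))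
      (volume.restrict (dom n T δ 0 h)) :=
    (hcf.comp (continuous_lift_pos hγ)).aestronglyMeasurable
  have m3 : AEStronglyMeasurable (fun p : ST n => fderiv ℝ φ (lift γ (pos p)) (u p))
      (volume.restrict (dom n T δ 0 h)) :=
    isBoundedBilinearMap_apply.continuous.comp_aestronglyMeasurable (m2.prodMk mu)
  have m4 : AEStronglyMeasurable (fun p : ST n => dot (u p) (pd (u p) φ (lift γ (pos p))))
      (volume.restrict (dom n T δ 0 h)) := continuous_dot.comp_aestronglyMeasurable (mu.prodMk m3)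
  refine Integrable.mono' (iu.const_mul (C1 * ((n + 1) * C2))) (m1.mul m4) ?_
  filter_upwards [hms] with p hp
  have hp1 : |θ p.1.1| ≤ C1 := h1 _ hp.1.1
  rw [Real.norm_eq_abs, abs_mul]
  have hp2 : |dot (u p) (pd (u p) φ (lift γ (pos p)))| ≤ (n + 1) * C2 * dot (u p) (u p) := by
    refine (abs_dot_le _ _).trans ?_
    have k1 : ‖pd (u p) φ (lift γ (pos p))‖ ≤ C2 * ‖u p‖ :=
      ((fderiv ℝ φ (lift γ (pos p))).le_opNorm (u p)).trans
        (mul_le_mul_of_nonneg_right (l2 _) (norm_nonneg _))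
    calc ((n : ℝ) + 1) * (‖u p‖ * ‖pd (u p) φ (lift γ (pos p))‖) ≤
          (n + 1) * (‖u p‖ * (C2 * ‖u p‖)) := by gcongr
      _ = (n + 1) * C2 * ‖u p‖ ^ 2 := by ring
      _ ≤ (n + 1) * C2 * dot (u p) (u p) := by
          gcongr
          exact norm_sq_le _
  calc |θ p.1.1| * |dot (u p) (pd (u p) φ (lift γ (pos p)))| ≤
        C1 * ((n + 1) * C2 * dot (u p) (u p)) := mul_le_mul hp1 hp2 (abs_nonneg _) hC1
    _ = C1 * ((n + 1) * C2) * dot (u p) (u p) := by ring

end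

theorem int_norm {γ : (Fin n → ℝ) → ℝ} {δ h T : ℝ} {u g : ST n → Z n} {u0 uT : Z n → Z n}
    (H : WeakTraj n γ δ h T u g u0 uT) : IntegrableOn (fun p => ‖u p‖) (dom n T δ 0 h) :=
  integrableOn_N continuous_norm (fun a => norm_nonneg a)
    (fun a => by
      have k1 := norm_sq_le a
      nlinarith [sq_nonneg (‖a‖ - 1)]) H.meas_u H.sq_u

/-- telescoping -/
theorem tele_sum {U : ℝ} {α β : ℕ → ℝ} (h0 : -U = α 0 + β 0)
    (h1 : ∀ j, 0 = -β j + α (j + 1) + β (j + 1)) (m : ℕ) :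
    -U = ∑ j ∈ Finset.range (m + 1), α j + β m := by
  induction m with
  | zero => simpa using h0
  | succ m ih =>
    rw [Finset.sum_range_succ, ih]
    have := h1 m
    linarith

/-- the weak formulation tested with the finite sum -/
theorem tele {γ : (Fin n → ℝ) → ℝ} {δ h T : ℝ} {u g : ST n → Z n} {u0 : Z n → Z n}
    (H : WeakTraj n γ δ h T u g u0 0) (hγ : Continuous γ) {φ : ℕ → Z n → Z n}
    (hφ : ∀ j, IsTest (box γ δ 0 h) (φ j)) (hdiv : ∀ j z, div (φ j) z = 0)
    (hstep : ∀ j z, φ (j + 1) z = lap (φ j) z) (m : ℕ) :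
    -∫ z in layer n δ 0 h, dot (u0 z) (φ 0 (lift γ z)) =
      ∑ j ∈ Finset.range (m + 1),
        (∫ p in dom n T δ 0 h, th j p.1.1 * dot (u p) (pd (u p) (φ j) (lift γ (pos p)))) +
      ∫ p in dom n T δ 0 h, th m p.1.1 * dot (u p) (φ (m + 1) (lift γ (pos p))) := by
  have hn := int_norm H
  have iA : ∀ j, IntegrableOn
      (fun p => th j p.1.1 * dot (u p) (pd (u p) (φ j) (lift γ (pos p)))) (dom n T δ 0 h) :=
    fun j => int_A H.meas_u H.sq_u hγ (th_contDiff j).continuous (hφ j)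
  have iB : ∀ i j, IntegrableOn
      (fun p => th i p.1.1 * dot (u p) (φ j (lift γ (pos p)))) (dom n T δ 0 h) :=
    fun i j => int_B H.meas_u hn hγ (th_contDiff i).continuous (hφ j)
  have h0 : ∀ j, ∫ z in layer n δ 0 h, dot ((0 : Z n → Z n) z) (φ j (lift γ z)) = 0 := by
    intro j
    have h3 : ∀ z, dot ((0 : Z n → Z n) z) (φ j (lift γ z)) = 0 := fun z => by simp [dot]
    simp only [h3, integral_zero]
  apply tele_sum (α := fun j => ∫ p in dom n T δ 0 h,
      th j p.1.1 * dot (u p) (pd (u p) (φ j) (lift γ (pos p))))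
    (β := fun m => ∫ p in dom n T δ 0 h, th m p.1.1 * dot (u p) (φ (m + 1) (lift γ (pos p))))
  · have hm := H.momentum (th 0) (φ 0) (th_contDiff 0) (hφ 0) (hdiv 0)
    rw [h0, mul_zero, zero_sub, th_zero, one_mul] at hm
    rw [hm, ← integral_add (iA 0) (iB 0 1)]
    congr 1
    funext p
    rw [deriv_th_zero, hstep]
    ring
  · intro j
    have hm := H.momentum (th (j + 1)) (φ (j + 1)) (th_contDiff _) (hφ _) (hdiv _)
    rw [h0, mul_zero, th_at_zero, zero_mul, sub_zero] at hm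
    have e1 : -(∫ p in dom n T δ 0 h, th j p.1.1 * dot (u p) (φ (j + 1) (lift γ (pos p)))) +
        (∫ p in dom n T δ 0 h,
          th (j + 1) p.1.1 * dot (u p) (pd (u p) (φ (j + 1)) (lift γ (pos p)))) +
        (∫ p in dom n T δ 0 h,
          th (j + 1) p.1.1 * dot (u p) (φ (j + 1 + 1) (lift γ (pos p)))) =
        ∫ p in dom n T δ 0 h, (-(th j p.1.1 * dot (u p) (φ (j + 1) (lift γ (pos p)))) +
          th (j + 1) p.1.1 * dot (u p) (pd (u p) (φ (j + 1)) (lift γ (pos p))) +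
          th (j + 1) p.1.1 * dot (u p) (φ (j + 1 + 1) (lift γ (pos p)))) := by
      have j1 : IntegrableOn (fun p => -(th j p.1.1 * dot (u p) (φ (j + 1) (lift γ (pos p)))))
        (dom n T δ 0 h) := (iB j (j + 1)).neg
      have j2 : IntegrableOn (fun p => -(th j p.1.1 * dot (u p) (φ (j + 1) (lift γ (pos p)))) +
          th (j + 1) p.1.1 * dot (u p) (pd (u p) (φ (j + 1)) (lift γ (pos p))))
        (dom n T δ 0 h) := j1.add (iA (j + 1))
      rw [integral_add j2 (iB _ _), integral_add j1 (iA _), integral_neg]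
    rw [e1]
    refine hm.trans ?_
    congr 1
    funext p
    rw [deriv_th_succ, hstep (j + 1)]
    ring

end Pool.Agent.W5h42.KF
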