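import Pool.Agent.W5h42.KF.Chart
import Pool.Agent.W5h42.KF.Tele

set_option autoImplicit false

/-! The scaled bump function near the curved wall, and its solenoidal field. -/

open MeasureTheory Set

namespace Pool.Agent.W5h42.KF

variable {n : ℕ}

/-- the scaled bump function -/
noncomputable def sb (Γ : (Fin n → ℝ) → ℝ) {δ h : ℝ} (hδ : 0 < δ) (hh : 0 < h) (z : Z n) : ℝ :=
  cb Γ (sc n δ⁻¹ h⁻¹ (inv_ne_zero hδ.ne') (inv_ne_zero hh.ne') z)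

theorem sb_test {Γ : (Fin n → ℝ) → ℝ} (hΓ : ContDiff ℝ (⊤ : ℕ∞) Γ) {δ h : ℝ} (hδ : 0 < δ)
    (hh : 0 < h) : IsTest (box (wall Γ δ h) δ (h / 2) h) (sb Γ hδ hh) := by
  set S := sc n δ⁻¹ h⁻¹ (inv_ne_zero hδ.ne') (inv_ne_zero hh.ne') with hS
  have hc : Continuous (flat Γ) := (flat_contDiff hΓ).continuous
  have hΓc : Continuous Γ := hΓ.continuous
  have hsub : tsupport (sb Γ hδ hh) ⊆
      (fun z => flat Γ (S z)) ⁻¹' (Metric.closedBall (ctr n) (1 / 8)) := by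
    apply closure_minimal _ (Metric.isClosed_closedBall.preimage (hc.comp S.continuous))
    intro w hw
    have h2 : flat Γ (S w) ∈ Function.support (bump n) := hw
    rw [(bump n).support_eq] at h2
    exact Metric.ball_subset_closedBall h2
  refine ⟨(cb_contDiff hΓ).comp S.contDiff, ?_, ?_⟩
  · -- compactness
    set U : Z n → Z n := fun w => S.symm (w.1, w.2 + Γ w.1) with hU
    have hUc : Continuous U := by
      apply S.symm.continuous.comp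
      fun_prop
    have hK : IsCompact (U '' (Metric.closedBall (ctr n) (1 / 8))) :=
      (isCompact_closedBall _ _).image hUc
    refine hK.of_isClosed_subset (isClosed_tsupport _) ?_
    intro z hz
    refine ⟨flat Γ (S z), hsub hz, ?_⟩
    have e1 : ((flat Γ (S z)).1, (flat Γ (S z)).2 + Γ (flat Γ (S z)).1) = S z := by
      unfold flat
      simp
    rw [hU]
    simp only
    rw [e1, ContinuousLinearEquiv.symm_apply_apply]
  · intro z hz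
    obtain ⟨h1, h2⟩ := ctr_fst (hsub hz)
    have h1' : ‖δ⁻¹ • z.1‖ ≤ 1 / 8 := h1
    have h2' : |h⁻¹ * z.2 - Γ (δ⁻¹ • z.1) - 3 / 4| ≤ 1 / 8 := h2
    rw [norm_smul, norm_inv, Real.norm_eq_abs, abs_of_pos hδ] at h1'
    rw [abs_le] at h2'
    have e2 : δ * (δ⁻¹ * ‖z.1‖) = ‖z.1‖ := by field_simp
    have e1 : h * (h⁻¹ * z.2 - Γ (δ⁻¹ • z.1)) = z.2 - wall Γ δ h z.1 := by
      unfold wall
      field_simp
    refine ⟨?_, ?_, ?_⟩
    · change z.1 ∈ Metric.ball (0 : Fin n → ℝ) δ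
      rw [Metric.mem_ball, dist_zero_right, ← e2]
      nlinarith
    · change h / 2 < z.2 - wall Γ δ h z.1
      rw [← e1]
      nlinarith
    · change z.2 - wall Γ δ h z.1 < h
      rw [← e1]
      nlinarith

theorem sb_nonneg (Γ : (Fin n → ℝ) → ℝ) {δ h : ℝ} (hδ : 0 < δ) (hh : 0 < h) (z : Z n) :
    0 ≤ sb Γ hδ hh z := (bump n).nonneg

theorem sb_lift (Γ : (Fin n → ℝ) → ℝ) {δ h : ℝ} (hδ : 0 < δ) (hh : 0 < h) (z : Z n) :
    sb Γ hδ hh (lift (wall Γ δ h) z) = bump n (δ⁻¹ • z.1, h⁻¹ * z.2) := by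
  unfold sb cb flat lift wall
  rw [sc_apply]
  simp only
  congr 2
  field_simp
  ring

theorem sb_integral (Γ : (Fin n → ℝ) → ℝ) {δ h : ℝ} (hδ : 0 < δ) (hh : 0 < h) :
    (1 / 8) ^ (n + 1) * (h * δ ^ n) ≤
      ∫ z in layer n δ 0 h, sb Γ hδ hh (lift (wall Γ δ h) z) := by
  simp only [sb_lift]
  have hcont : Continuous fun z : Z n => bump n (δ⁻¹ • z.1, h⁻¹ * z.2) := by
    apply (bump n).continuous.comp
    fun_prop
  have hcs : HasCompactSupport fun z : Z n => bump n (δ⁻¹ • z.1, h⁻¹ * z.2) :=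
    (bump n).hasCompactSupport.comp_homeomorph
      (sc n δ⁻¹ h⁻¹ (inv_ne_zero hδ.ne') (inv_ne_zero hh.ne')).toHomeomorph
  have hi : Integrable fun z : Z n => bump n (δ⁻¹ • z.1, h⁻¹ * z.2) :=
    hcont.integrable_of_hasCompactSupport hcs
  set B : Set (Z n) := Metric.ball (0 : Fin n → ℝ) (δ / 16) ×ˢ Ioo (11 / 16 * h) (13 / 16 * h)
    with hB
  have hBm : MeasurableSet B := Metric.isOpen_ball.measurableSet.prod measurableSet_Ioo
  have hsub : B ⊆ layer n δ 0 h := by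
    apply prod_mono
    · exact Metric.ball_subset_ball (by linarith)
    · exact Ioo_subset_Ioo (by positivity) (by linarith)
  have hv : volume B = ENNReal.ofReal ((2 * (δ / 16)) ^ n) *
      ENNReal.ofReal (13 / 16 * h - 11 / 16 * h) := by
    rw [hB, Measure.volume_eq_prod, Measure.prod_prod, Real.volume_Ioo,
      Real.volume_pi_ball _ (by positivity : 0 < δ / 16), Fintype.card_fin]
  have hv' : volume.real B = (1 / 8) ^ (n + 1) * (h * δ ^ n) := by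
    rw [Measure.real, hv, ENNReal.toReal_mul, ENNReal.toReal_ofReal (by positivity),
      ENNReal.toReal_ofReal (by linarith), pow_succ]
    have e1 : 2 * (δ / 16) = 1 / 8 * δ := by ring
    rw [e1, mul_pow]
    ring
  have hfin : volume B ≠ ⊤ := by
    rw [hv]
    exact (ENNReal.mul_lt_top ENNReal.ofReal_lt_top ENNReal.ofReal_lt_top).ne
  calc (1 / 8) ^ (n + 1) * (h * δ ^ n) = ∫ _ in B, (1 : ℝ) := by
        rw [setIntegral_const, smul_eq_mul, mul_one, hv']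
    _ ≤ ∫ z in B, bump n (δ⁻¹ • z.1, h⁻¹ * z.2) := by
        apply setIntegral_mono_on (integrableOn_const hfin) hi.integrableOn hBm
        intro z hz
        have h1 : bump n (δ⁻¹ • z.1, h⁻¹ * z.2) = 1 := by
          apply (bump n).one_of_mem_closedBall
          rw [Metric.mem_closedBall, Prod.dist_eq, max_le_iff]
          have hz1 : ‖z.1‖ < δ / 16 := by
            have := hz.1
            rwa [Metric.mem_ball, dist_zero_right] at this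
          have hz2 := hz.2
          constructor
          · change dist (δ⁻¹ • z.1) 0 ≤ 1 / 16
            rw [dist_zero_right, norm_smul, norm_inv, Real.norm_eq_abs, abs_of_pos hδ,
              inv_mul_le_iff₀ hδ]
            linarith
          · change dist (h⁻¹ * z.2) (3 / 4) ≤ 1 / 16
            rw [Real.dist_eq, abs_le]
            have e1 : h⁻¹ * (11 / 16 * h) = 11 / 16 := by field_simp
            have e2 : h⁻¹ * (13 / 16 * h) = 13 / 16 := by field_simp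
            have k1 : h⁻¹ * (11 / 16 * h) ≤ h⁻¹ * z.2 :=
              mul_le_mul_of_nonneg_left hz2.1.le (inv_nonneg.2 hh.le)
            have k2 : h⁻¹ * z.2 ≤ h⁻¹ * (13 / 16 * h) :=
              mul_le_mul_of_nonneg_left hz2.2.le (inv_nonneg.2 hh.le)
            rw [e1] at k1
            rw [e2] at k2
            constructor <;> linarith
        rw [h1]
    _ ≤ ∫ z in layer n δ 0 h, bump n (δ⁻¹ • z.1, h⁻¹ * z.2) :=
        setIntegral_mono_set hi.integrableOn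
          (Filter.Eventually.of_forall fun z => (bump n).nonneg)
          (Filter.Eventually.of_forall hsub)

/-- the unit vectors -/
def Bas (n : ℕ) : Set (Z n) := insert ey (range ex)

theorem ey_mem : (ey : Z n) ∈ Bas n := mem_insert _ _

theorem ex_mem (i : Fin n) : (ex i : Z n) ∈ Bas n := mem_insert_of_mem _ (mem_range_self i)

/-- `rot` commutes with derivatives -/
theorem pd_rot (i : Fin n) {ψ : Z n → ℝ} (hf : ContDiff ℝ (⊤ : ℕ∞) ψ) (v : Z n) :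
    pd v (rot i ψ) = rot i (pd v ψ) := by
  funext z
  rw [hasFDerivAt_rot i hf, pd_comm hf v ey, pd_comm hf v (ex i)]
  rfl

theorem norm_rot_le (i : Fin n) (ψ : Z n → ℝ) (z : Z n) {M : ℝ} (hM : 0 ≤ M)
    (h1 : |pd ey ψ z| ≤ M) (h2 : |pd (ex i) ψ z| ≤ M) : ‖rot i ψ z‖ ≤ M := by
  unfold rot
  rw [Prod.norm_def, max_le_iff]
  constructor
  · rw [pi_norm_le_iff_of_nonneg hM]
    intro j
    by_cases hj : j = i
    · subst hj
      simpa using h1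
    · simp only [Pi.single_eq_of_ne hj, norm_zero]
      exact hM
  · simpa using h2

theorem norm_lap_le {F : Type} [NormedAddCommGroup F] [NormedSpace ℝ F] {f : Z n → F} {z : Z n}
    {M : ℝ} (h1 : ∀ a ∈ Bas n, ‖pd a (pd a f) z‖ ≤ M) : ‖lap f z‖ ≤ (n + 1) * M := by
  unfold lap
  calc ‖∑ i, pd (ex i) (pd (ex i) f) z + pd ey (pd ey f) z‖
      ≤ ‖∑ i, pd (ex i) (pd (ex i) f) z‖ + ‖pd ey (pd ey f) z‖ := norm_add_le _ _
    _ ≤ ∑ i : Fin n, ‖pd (ex i) (pd (ex i) f) z‖ + ‖pd ey (pd ey f) z‖ := by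
        gcongr
        exact norm_sum_le _ _
    _ ≤ ∑ _i : Fin n, M + M := by
        gcongr with i
        · exact h1 _ (ex_mem i)
        · exact h1 _ ey_mem
    _ = (n + 1) * M := by
        rw [Finset.sum_const, Finset.card_univ, Fintype.card_fin, nsmul_eq_mul]
        ring

theorem sum_single' (b : Fin n → ℝ) (i : Fin n) (c : ℝ) :
    ∑ x, b x * (Pi.single i c : Fin n → ℝ) x = b i * c := by
  rw [Finset.sum_eq_single i]
  · rw [Pi.single_eq_same]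
  · intro j _ hj
    rw [Pi.single_eq_of_ne hj, mul_zero]
  · intro hi
    exact absurd (Finset.mem_univ i) hi

/-- the bounds for the scaled bump function, in terms of the bounds before scaling -/
theorem scaled_pd {f : Z n → ℝ} (hf : ContDiff ℝ (⊤ : ℕ∞) f) {C δ h : ℝ} (hδ : 0 < δ)
    (hh : 0 < h) (hC : ∀ z, ∀ k ≤ 3, ‖iteratedFDeriv ℝ k f z‖ ≤ C) :
    let S := sc n δ⁻¹ h⁻¹ (inv_ne_zero hδ.ne') (inv_ne_zero hh.ne')
    (∀ w z, |pd w (fun z => f (S z)) z| ≤ C * ‖S w‖) ∧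
    (∀ v w z, |pd v (pd w (fun z => f (S z))) z| ≤ C * (‖S v‖ * ‖S w‖)) ∧
    ∀ v w a z, |pd v (pd w (pd a (fun z => f (S z)))) z| ≤ C * (‖S v‖ * ‖S w‖ * ‖S a‖) := by
  intro S
  have e1 : ∀ g : Z n → ℝ, ContDiff ℝ (⊤ : ℕ∞) g → ∀ w, pd w (fun z => g (S z)) =
      fun z => pd (S w) g (S z) := by
    intro g hg w
    funext z
    exact pd_comp (inv_ne_zero hδ.ne') (inv_ne_zero hh.ne') (hg.differentiable (by simp)) w z
  refine ⟨fun w z => ?_, fun v w z => ?_, fun v w a z => ?_⟩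
  · rw [e1 f hf]
    exact abs_pd1 hf _ _ (hC _)
  · rw [e1 f hf, e1 _ (contDiff_pd hf _)]
    exact abs_pd2 hf _ _ _ (hC _)
  · rw [e1 f hf, e1 _ (contDiff_pd hf _), e1 _ (contDiff_pd (contDiff_pd hf _) _)]
    exact abs_pd3 hf _ _ _ _ (hC _)

theorem norm_sc_le {δ h : ℝ} (hδ : 0 < δ) (hh : 0 < h) (v : Z n) :
    ‖sc n δ⁻¹ h⁻¹ (inv_ne_zero hδ.ne') (inv_ne_zero hh.ne') v‖ ≤
      δ⁻¹ * ‖v‖ + h⁻¹ * |v.2| := by
  rw [sc_apply, Prod.norm_def, max_le_iff]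
  constructor
  · change ‖δ⁻¹ • v.1‖ ≤ _
    rw [norm_smul, norm_inv, Real.norm_eq_abs, abs_of_pos hδ]
    have h1 : δ⁻¹ * ‖v.1‖ ≤ δ⁻¹ * ‖v‖ :=
      mul_le_mul_of_nonneg_left (norm_fst_le v) (inv_nonneg.2 hδ.le)
    have h2 : 0 ≤ h⁻¹ * |v.2| := by positivity
    linarith
  · change |h⁻¹ * v.2| ≤ _
    rw [abs_mul, abs_of_pos (inv_pos.2 hh)]
    have h2 : 0 ≤ δ⁻¹ * ‖v‖ := by positivity
    linarith

theorem norm_sc_ey {δ h : ℝ} (hδ : 0 < δ) (hh : 0 < h) :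
    ‖sc n δ⁻¹ h⁻¹ (inv_ne_zero hδ.ne') (inv_ne_zero hh.ne') (ey : Z n)‖ ≤ h⁻¹ := by
  rw [sc_ey, norm_smul, norm_inv, Real.norm_eq_abs, abs_of_pos hh]
  have h1 : ‖(ey : Z n)‖ ≤ 1 := by
    unfold ey
    rw [Prod.norm_def]
    simp
  calc h⁻¹ * ‖(ey : Z n)‖ ≤ h⁻¹ * 1 := mul_le_mul_of_nonneg_left h1 (inv_nonneg.2 hh.le)
    _ = h⁻¹ := mul_one _

theorem norm_sc_ex {δ h : ℝ} (hδ : 0 < δ) (hh : 0 < h) (i : Fin n) :
    ‖sc n δ⁻¹ h⁻¹ (inv_ne_zero hδ.ne') (inv_ne_zero hh.ne') (ex i : Z n)‖ ≤ δ⁻¹ := by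
  rw [sc_ex, norm_smul, norm_inv, Real.norm_eq_abs, abs_of_pos hδ]
  have h1 : ‖(ex i : Z n)‖ ≤ 1 := by
    unfold ex
    rw [Prod.norm_def]
    simp [Pi.norm_single]
  calc δ⁻¹ * ‖(ex i : Z n)‖ ≤ δ⁻¹ * 1 := mul_le_mul_of_nonneg_left h1 (inv_nonneg.2 hδ.le)
    _ = δ⁻¹ := mul_one _

/-- bounds for the derivatives up to the order `K` -/
def Bd (K : ℕ) (C : ℝ) (f : Z n → ℝ) : Prop :=
  ContDiff ℝ (⊤ : ℕ∞) f ∧ ∀ z, ∀ k ≤ K, ‖iteratedFDeriv ℝ k f z‖ ≤ C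

theorem Bd.mono {K K' : ℕ} {C C' : ℝ} {f : Z n → ℝ} (h : Bd K C f) (hK : K' ≤ K) (hC : C ≤ C') :
    Bd K' C' f := ⟨h.1, fun z k hk => (h.2 z k (hk.trans hK)).trans hC⟩

theorem Bd.pd {K : ℕ} {C : ℝ} {f : Z n → ℝ} (h : Bd (K + 1) C f) {w : Z n} (hw : ‖w‖ ≤ 1) :
    Bd K C (pd w f) := by
  refine ⟨contDiff_pd h.1 w, fun z k hk => ?_⟩
  have h1 := h.2 z (k + 1) (by omega)
  calc ‖iteratedFDeriv ℝ k (KF.pd w f) z‖ ≤ ‖w‖ * ‖iteratedFDeriv ℝ (k + 1) f z‖ :=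
        norm_iter_pd h.1 w z k
    _ ≤ 1 * C := mul_le_mul hw h1 (norm_nonneg _) zero_le_one
    _ = C := one_mul C

theorem Bd.add {K : ℕ} {C C' : ℝ} {f g : Z n → ℝ} (hf : Bd K C f) (hg : Bd K C' g) :
    Bd K (C + C') (fun z => f z + g z) := by
  refine ⟨hf.1.add hg.1, fun z k hk => ?_⟩
  have h1 : iteratedFDeriv ℝ k (fun z => f z + g z) z =
      iteratedFDeriv ℝ k f z + iteratedFDeriv ℝ k g z :=
    iteratedFDeriv_add_apply ((hf.1.of_le (le_top' k)).contDiffAt)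
      ((hg.1.of_le (le_top' k)).contDiffAt)
  rw [h1]
  exact (norm_add_le _ _).trans (add_le_add (hf.2 z k hk) (hg.2 z k hk))

theorem Bd.smul {K : ℕ} {C : ℝ} {f : Z n → ℝ} (hf : Bd K C f) {c : ℝ} (hc : 0 ≤ c) :
    Bd K (c * C) (fun z => c * f z) := by
  refine ⟨contDiff_const.mul hf.1, fun z k hk => ?_⟩
  have h1 := ContinuousLinearMap.norm_iteratedFDeriv_comp_left (𝕜 := ℝ)
    (c • ContinuousLinearMap.id ℝ ℝ) (hf.1.contDiffAt (x := z)) (le_top' k)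
  have h2 : (⇑(c • ContinuousLinearMap.id ℝ ℝ) ∘ f) = fun z => c * f z := by
    funext w
    simp
  rw [h2] at h1
  have h3 : ‖c • ContinuousLinearMap.id ℝ ℝ‖ ≤ c := by
    rw [norm_smul, Real.norm_eq_abs, abs_of_nonneg hc]
    calc c * ‖ContinuousLinearMap.id ℝ ℝ‖ ≤ c * 1 :=
          mul_le_mul_of_nonneg_left ContinuousLinearMap.norm_id_le hc
      _ = c := mul_one c
  exact h1.trans (mul_le_mul h3 (hf.2 z k hk) (norm_nonneg _) hc)

theorem Bd.sum {K : ℕ} {C : ℝ} (s : Finset (Fin n)) {f : Fin n → Z n → ℝ}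
    (hf : ∀ i, Bd K C (f i)) : Bd K (s.card * C) (fun z => ∑ i ∈ s, f i z) := by
  induction s using Finset.induction_on with
  | empty =>
    simp only [Finset.sum_empty, Finset.card_empty, Nat.cast_zero, zero_mul]
    refine ⟨contDiff_const, fun z k hk => ?_⟩
    rcases Nat.eq_zero_or_pos k with h0 | h0
    · subst h0
      rw [norm_iteratedFDeriv_zero]
      simp
    · rw [iteratedFDeriv_const_of_ne (by omega)]
      simp
  | insert a s ha ih =>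
    have h1 := (hf a).add ih
    have h2 : (fun z => ∑ i ∈ insert a s, f i z) = fun z => f a z + ∑ i ∈ s, f i z := by
      funext z
      rw [Finset.sum_insert ha]
    rw [h2, Finset.card_insert_of_notMem ha]
    refine h1.mono le_rfl (le_of_eq ?_)
    push_cast
    ring

theorem norm_ey_le : ‖(ey : Z n)‖ ≤ 1 := by
  unfold ey
  rw [Prod.norm_def]
  simp

theorem norm_ex_le (i : Fin n) : ‖(ex i : Z n)‖ ≤ 1 := by
  unfold ex
  rw [Prod.norm_def]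
  simp [Pi.norm_single]

/-- the scaled Laplacian -/
noncomputable def ls (δ h : ℝ) (f : Z n → ℝ) (z : Z n) : ℝ :=
  δ⁻¹ ^ 2 * ∑ i, pd (ex i) (pd (ex i) f) z + h⁻¹ ^ 2 * pd ey (pd ey f) z

theorem Bd.ls {K : ℕ} {C δ h : ℝ} (hC : 0 ≤ C) (hδ : 0 < δ) (hh : 0 < h) (hhδ : h ≤ δ)
    {f : Z n → ℝ} (hf : Bd (K + 2) C f) : Bd K (((n + 1) * h⁻¹ ^ 2) * C) (ls δ h f) := by
  have hdh : δ⁻¹ ≤ h⁻¹ := inv_anti₀ hh hhδ
  have hd0 : 0 < δ⁻¹ := inv_pos.2 hδ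
  have h1 : ∀ i : Fin n, Bd K C (KF.pd (ex i) (KF.pd (ex i) f)) := fun i =>
    Bd.pd (Bd.pd hf (norm_ex_le i)) (norm_ex_le i)
  have h2 : Bd K C (KF.pd ey (KF.pd ey f)) := Bd.pd (Bd.pd hf norm_ey_le) norm_ey_le
  have h3 := (Bd.smul (Bd.sum Finset.univ h1) (c := δ⁻¹ ^ 2) (by positivity)).add
    (Bd.smul h2 (c := h⁻¹ ^ 2) (by positivity))
  refine Bd.mono h3 le_rfl ?_
  rw [Finset.card_univ, Fintype.card_fin]
  have h4 : δ⁻¹ ^ 2 ≤ h⁻¹ ^ 2 := by gcongr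
  have h5 : δ⁻¹ ^ 2 * ((n : ℝ) * C) ≤ h⁻¹ ^ 2 * ((n : ℝ) * C) := by gcongr
  calc δ⁻¹ ^ 2 * ((n : ℝ) * C) + h⁻¹ ^ 2 * C ≤ h⁻¹ ^ 2 * ((n : ℝ) * C) + h⁻¹ ^ 2 * C := by
        linarith
    _ = (((n : ℝ) + 1) * h⁻¹ ^ 2) * C := by ring

theorem Bd.iter {C δ h : ℝ} (hC : 0 ≤ C) (hδ : 0 < δ) (hh : 0 < h) (hhδ : h ≤ δ)
    {f : Z n → ℝ} (j : ℕ) : ∀ K : ℕ, Bd (K + 2 * j) C f →
      Bd K (((n + 1) * h⁻¹ ^ 2) ^ j * C) ((KF.ls δ h)^[j] f) := by
  induction j with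
  | zero =>
    intro K hf
    simpa using hf
  | succ j ih =>
    intro K hf
    rw [Function.iterate_succ_apply']
    have h1 := ih (K + 2) (hf.mono (by omega) le_rfl)
    have h2 := Bd.ls (by positivity) hδ hh hhδ h1
    refine h2.mono le_rfl (le_of_eq ?_)
    rw [pow_succ]
    ring

/-- the Laplacian of a scaled function -/
theorem lap_scaled {f : Z n → ℝ} (hf : ContDiff ℝ (⊤ : ℕ∞) f) {δ h : ℝ} (hδ : 0 < δ)
    (hh : 0 < h) (z : Z n) :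
    lap (fun z => f (sc n δ⁻¹ h⁻¹ (inv_ne_zero hδ.ne') (inv_ne_zero hh.ne') z)) z =
      ls δ h f (sc n δ⁻¹ h⁻¹ (inv_ne_zero hδ.ne') (inv_ne_zero hh.ne') z) := by
  set S := sc n δ⁻¹ h⁻¹ (inv_ne_zero hδ.ne') (inv_ne_zero hh.ne') with hS
  have e1 : ∀ g : Z n → ℝ, ContDiff ℝ (⊤ : ℕ∞) g → ∀ w, pd w (fun z => g (S z)) =
      fun z => pd (S w) g (S z) := by
    intro g hg w
    funext z
    exact pd_comp (inv_ne_zero hδ.ne') (inv_ne_zero hh.ne') (hg.differentiable (by simp)) w z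
  have e2 : ∀ (a : Z n) (c : ℝ), S a = c • a →
      pd a (pd a (fun z => f (S z))) z = c ^ 2 * pd a (pd a f) (S z) := by
    intro a c hc
    have h3 : pd (c • a) f = fun w => c • pd a f w := by
      funext w
      exact pd_smul a c f w
    have h4 : ContDiff ℝ (⊤ : ℕ∞) (pd a f) := contDiff_pd hf a
    rw [e1 f hf, hc, h3]
    have h5 : ContDiff ℝ (⊤ : ℕ∞) (fun w => c • pd a f w) := by
      simp only [smul_eq_mul]
      exact contDiff_const.mul h4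
    rw [e1 _ h5, hc]
    simp only
    rw [pd_smul, pd_const_smul c (h4.differentiable (by simp)), smul_eq_mul, smul_eq_mul]
    ring
  unfold lap ls
  rw [e2 ey h⁻¹ (sc_ey _ _), Finset.mul_sum]
  congr 1
  apply Finset.sum_congr rfl
  intro i _
  exact e2 (ex i) δ⁻¹ (sc_ex _ _ i)

/-- the Laplacian of a test function -/
theorem IsTest.lap {U : Set (Z n)} {F : Type} [NormedAddCommGroup F] [NormedSpace ℝ F]
    {f : Z n → F} (hf : IsTest U f) : IsTest U (lap f) := by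
  have k0 : ∀ z, z ∉ tsupport f → KF.lap f z = 0 := by
    intro z hz'
    have k2 : ∀ v : Z n, KF.pd v (KF.pd v f) z = 0 := fun v => image_eq_zero_of_notMem_tsupport
      (fun hc => hz' (tsupport_pd f v (tsupport_pd (KF.pd v f) v hc)))
    unfold KF.lap
    rw [Finset.sum_eq_zero fun i _ => k2 _, k2, add_zero]
  have k1 : tsupport (KF.lap f) ⊆ tsupport f := by
    apply closure_minimal _ (isClosed_tsupport f)
    intro z hz
    by_contra hc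
    exact hz (k0 z hc)
  refine ⟨?_, hf.compact.of_isClosed_subset (isClosed_tsupport _) k1, k1.trans hf.supp⟩
  apply ContDiff.add
  · exact ContDiff.sum fun j _ => contDiff_pd (contDiff_pd hf.smooth _) _
  · exact contDiff_pd (contDiff_pd hf.smooth _) _

/-- `rot` commutes with the Laplacian -/
theorem lap_rot (i : Fin n) {ψ : Z n → ℝ} (hf : ContDiff ℝ (⊤ : ℕ∞) ψ) (z : Z n) :
    lap (rot i ψ) z = rot i (lap ψ) z := by
  have hd : ∀ a : Z n, Differentiable ℝ (pd a (pd a ψ)) := fun a =>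
    (contDiff_pd (contDiff_pd hf a) a).differentiable (by simp)
  have h1 : ∀ a : Z n, pd a (pd a (rot i ψ)) z = rot i (pd a (pd a ψ)) z := by
    intro a
    rw [pd_rot i hf, pd_rot i (contDiff_pd hf a)]
  have h2 : ∀ w : Z n, pd w (lap ψ) z =
      ∑ j, pd w (pd (ex j) (pd (ex j) ψ)) z + pd w (pd ey (pd ey ψ)) z := by
    intro w
    have h3 : HasFDerivAt (lap ψ) (∑ j : Fin n, fderiv ℝ (pd (ex j) (pd (ex j) ψ)) z +
        fderiv ℝ (pd ey (pd ey ψ)) z) z := by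
      apply HasFDerivAt.add
      · exact HasFDerivAt.fun_sum fun j _ => (hd (ex j) z).hasFDerivAt
      · exact (hd ey z).hasFDerivAt
    have h4 : pd w (lap ψ) z = fderiv ℝ (lap ψ) z w := rfl
    rw [h4, h3.fderiv]
    simp [pd]
  have h5 : lap (rot i ψ) z = ∑ j, rot i (pd (ex j) (pd (ex j) ψ)) z +
      rot i (pd ey (pd ey ψ)) z := by
    have h6 : lap (rot i ψ) z = ∑ j, pd (ex j) (pd (ex j) (rot i ψ)) z +
      pd ey (pd ey (rot i ψ)) z := rfl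
    rw [h6, h1, Finset.sum_congr rfl fun j _ => h1 _]
  rw [h5]
  unfold rot
  rw [h2, h2]
  apply Prod.ext
  · simp only [Prod.fst_add, Prod.fst_sum]
    funext j
    by_cases hj : j = i
    · subst hj
      simp
    · simp [Pi.single_eq_of_ne hj]
  · simp only [Prod.snd_add, Prod.snd_sum]
    simp only [Finset.sum_neg_distrib]
    ring

/-- the bounds for the solenoidal field of a scaled function -/
theorem gen_bounds {f : Z n → ℝ} {C δ h : ℝ} (hC0 : 0 ≤ C) (hf : Bd 3 C f) (hδ : 0 < δ)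
    (hh : 0 < h) (hhδ : h ≤ δ) (i : Fin n) {ψ : Z n → ℝ}
    (hψ : ψ = fun z => f (sc n δ⁻¹ h⁻¹ (inv_ne_zero hδ.ne') (inv_ne_zero hh.ne') z)) :
      (∀ v z, |dot v (pd v (rot i ψ) z)| ≤
        C * h⁻¹ ^ 2 * (Real.sqrt (dot v v) * |v.2|) + 3 * C * (h * δ)⁻¹ * dot v v) ∧
      (∀ v z, |dot v (lap (rot i ψ) z)| ≤
        (n + 1) ^ 2 * C * h⁻¹ ^ 3 * Real.sqrt (dot v v)) ∧
      (∀ z, |pd ey ψ z| ≤ C * h⁻¹) ∧
      (∀ z, |pd (ex i) ψ z| ≤ C * δ⁻¹) ∧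
      (∀ z, |lap ψ z| ≤ (n + 1) * (C * h⁻¹ ^ 2)) := by
  obtain ⟨b1, b2, b3⟩ := scaled_pd hf.1 hδ hh hf.2
  set S := sc n δ⁻¹ h⁻¹ (inv_ne_zero hδ.ne') (inv_ne_zero hh.ne') with hS
  rw [← hψ] at b1 b2 b3
  have hsb : ContDiff ℝ (⊤ : ℕ∞) ψ := by
    rw [hψ]
    exact hf.1.comp S.contDiff
  have b1' : ∀ w z, |pd w ψ z| ≤ C * ‖S w‖ := b1
  have b2' : ∀ v w z, |pd v (pd w ψ) z| ≤ C * (‖S v‖ * ‖S w‖) := b2
  have b3' : ∀ v w a z, |pd v (pd w (pd a ψ)) z| ≤ C * (‖S v‖ * ‖S w‖ * ‖S a‖) := b3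
  have hi0 : 0 < h⁻¹ := inv_pos.2 hh
  have hd0 : 0 < δ⁻¹ := inv_pos.2 hδ
  have hdh : δ⁻¹ ≤ h⁻¹ := inv_anti₀ hh hhδ
  have hbas : ∀ a ∈ Bas n, ‖S a‖ ≤ h⁻¹ := by
    intro a ha
    rcases ha with rfl | ⟨j, rfl⟩
    · exact norm_sc_ey hδ hh
    · exact (norm_sc_ex hδ hh j).trans hdh
  refine ⟨fun v z => ?_, fun v z => ?_, fun z => ?_, fun z => ?_, fun z => ?_⟩
  · rw [hasFDerivAt_rot i hsb]
    set X := pd v (pd ey ψ) z with hX
    set Y := pd v (pd (ex i) ψ) z with hY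
    have e1 : dot v ((Pi.single i X, -Y) : Z n) = v.1 i * X - v.2 * Y := by
      unfold dot
      simp only
      rw [sum_single']
      ring
    rw [e1]
    have hXb : |X| ≤ C * ((δ⁻¹ * ‖v‖ + h⁻¹ * |v.2|) * h⁻¹) := by
      refine (b2' v ey z).trans ?_
      have k1 := norm_sc_le hδ hh v
      have k2 := norm_sc_ey (n := n) hδ hh
      gcongr
    have hYb : |Y| ≤ C * ((δ⁻¹ * ‖v‖ + h⁻¹ * |v.2|) * δ⁻¹) := by
      refine (b2' v (ex i) z).trans ?_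
      have k1 := norm_sc_le hδ hh v
      have k2 := norm_sc_ex hδ hh i
      gcongr
    set s := Real.sqrt (dot v v) with hs
    have hs0 : 0 ≤ s := Real.sqrt_nonneg _
    have hs2 : s ^ 2 = dot v v := Real.sq_sqrt (dot_nonneg v)
    have hvs : ‖v‖ ≤ s := norm_le_sqrt v
    have hv1 : |v.1 i| ≤ s := (norm_le_pi_norm v.1 i).trans ((norm_fst_le v).trans hvs)
    have hv2 : |v.2| ≤ s := (norm_snd_le v).trans hvs
    have hw0 : 0 ≤ |v.2| := abs_nonneg _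
    have k1 : |v.1 i * X - v.2 * Y| ≤ |v.1 i| * |X| + |v.2| * |Y| := by
      rw [← abs_mul, ← abs_mul]
      exact abs_sub _ _
    have k2 : |v.1 i| * |X| ≤ s * (C * ((δ⁻¹ * s + h⁻¹ * |v.2|) * h⁻¹)) := by
      refine mul_le_mul hv1 (hXb.trans ?_) (abs_nonneg _) hs0
      gcongr
    have k3 : |v.2| * |Y| ≤ |v.2| * (C * ((δ⁻¹ * s + h⁻¹ * |v.2|) * δ⁻¹)) := by
      refine mul_le_mul_of_nonneg_left (hYb.trans ?_) hw0
      gcongr
    have k4 : |v.2| * (C * ((δ⁻¹ * s + h⁻¹ * |v.2|) * δ⁻¹)) ≤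
        s * (C * ((h⁻¹ * s + h⁻¹ * s) * δ⁻¹)) := by
      gcongr
    have e2 : (h * δ)⁻¹ = h⁻¹ * δ⁻¹ := mul_inv _ _
    rw [e2, ← hs2]
    calc |v.1 i * X - v.2 * Y| ≤ |v.1 i| * |X| + |v.2| * |Y| := k1
      _ ≤ s * (C * ((δ⁻¹ * s + h⁻¹ * |v.2|) * h⁻¹)) +
          s * (C * ((h⁻¹ * s + h⁻¹ * s) * δ⁻¹)) := add_le_add k2 (k3.trans k4)
      _ = C * h⁻¹ ^ 2 * (s * |v.2|) + 3 * C * (h⁻¹ * δ⁻¹) * s ^ 2 := by ring
  · have h1 : ‖lap (rot i ψ) z‖ ≤ (n + 1) * (C * h⁻¹ ^ 3) := by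
      apply norm_lap_le
      intro a ha
      rw [pd_rot i hsb, pd_rot i (contDiff_pd hsb a)]
      have k0 : ∀ w ∈ Bas n, |pd w (pd a (pd a ψ)) z| ≤ C * h⁻¹ ^ 3 := by
        intro w hw
        refine (b3' w a a z).trans ?_
        have k1 := hbas w hw
        have k2 := hbas a ha
        calc C * (‖S w‖ * ‖S a‖ * ‖S a‖) ≤ C * (h⁻¹ * h⁻¹ * h⁻¹) := by gcongr
          _ = C * h⁻¹ ^ 3 := by ring
      exact norm_rot_le i _ z (by positivity) (k0 _ ey_mem) (k0 _ (ex_mem i))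
    calc |dot v (lap (rot i ψ) z)| ≤
          (n + 1) * (‖v‖ * ‖lap (rot i ψ) z‖) := abs_dot_le _ _
      _ ≤ (n + 1) * (Real.sqrt (dot v v) * ((n + 1) * (C * h⁻¹ ^ 3))) := by
          gcongr
          exact norm_le_sqrt v
      _ = _ := by ring
  · refine (b1' ey z).trans ?_
    have k2 := norm_sc_ey (n := n) hδ hh
    gcongr
  · refine (b1' (ex i) z).trans ?_
    have k2 := norm_sc_ex hδ hh i
    gcongr
  · apply norm_lap_le (F := ℝ)
    intro a ha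
    rw [Real.norm_eq_abs]
    refine (b2' a a z).trans ?_
    have k2 := hbas a ha
    calc C * (‖S a‖ * ‖S a‖) ≤ C * (h⁻¹ * h⁻¹) := by gcongr
      _ = C * h⁻¹ ^ 2 := by ring

/-- the iterated Laplacians of the scaled bump function -/
noncomputable def sbj (Γ : (Fin n → ℝ) → ℝ) {δ h : ℝ} (hδ : 0 < δ) (hh : 0 < h) (j : ℕ)
    (z : Z n) : ℝ :=
  ((ls δ h)^[j] (cb Γ)) (sc n δ⁻¹ h⁻¹ (inv_ne_zero hδ.ne') (inv_ne_zero hh.ne') z)

theorem sbj_zero (Γ : (Fin n → ℝ) → ℝ) {δ h : ℝ} (hδ : 0 < δ) (hh : 0 < h) :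
    sbj Γ hδ hh 0 = sb Γ hδ hh := rfl

theorem ls_contDiff {δ h : ℝ} {f : Z n → ℝ} (hf : ContDiff ℝ (⊤ : ℕ∞) f) :
    ContDiff ℝ (⊤ : ℕ∞) (ls δ h f) := by
  unfold ls
  refine (contDiff_const.mul ?_).add (contDiff_const.mul (contDiff_pd (contDiff_pd hf _) _))
  exact ContDiff.sum fun j _ => contDiff_pd (contDiff_pd hf _) _

theorem iter_contDiff {Γ : (Fin n → ℝ) → ℝ} (hΓ : ContDiff ℝ (⊤ : ℕ∞) Γ) {δ h : ℝ} (j : ℕ) :
    ContDiff ℝ (⊤ : ℕ∞) ((ls δ h)^[j] (cb Γ)) := by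
  induction j with
  | zero => exact cb_contDiff hΓ
  | succ j ih =>
    rw [Function.iterate_succ_apply']
    exact ls_contDiff ih

theorem sbj_succ {Γ : (Fin n → ℝ) → ℝ} (hΓ : ContDiff ℝ (⊤ : ℕ∞) Γ) {δ h : ℝ} (hδ : 0 < δ)
    (hh : 0 < h) (j : ℕ) : sbj Γ hδ hh (j + 1) = lap (sbj Γ hδ hh j) := by
  funext z
  have h1 := lap_scaled (iter_contDiff hΓ (δ := δ) (h := h) j) hδ hh z
  unfold sbj
  rw [Function.iterate_succ_apply']
  exact h1.symm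

theorem sbj_test {Γ : (Fin n → ℝ) → ℝ} (hΓ : ContDiff ℝ (⊤ : ℕ∞) Γ) {δ h : ℝ} (hδ : 0 < δ)
    (hh : 0 < h) (j : ℕ) : IsTest (box (wall Γ δ h) δ (h / 2) h) (sbj Γ hδ hh j) := by
  induction j with
  | zero => exact sb_test hΓ hδ hh
  | succ j ih =>
    rw [sbj_succ hΓ]
    exact ih.lap

/-- the constant for the `j`-th Laplacian -/
theorem sbj_bounds (n m : ℕ) : ∃ C : ℝ, 1 ≤ C ∧ ∀ Γ : (Fin n → ℝ) → ℝ, Profile m Γ →
    ∀ {δ h : ℝ} (hδ : 0 < δ) (hh : 0 < h), h ≤ δ → ∀ (i : Fin n) (j : ℕ), j ≤ m →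
      (∀ v z, |dot v (pd v (rot i (sbj Γ hδ hh j)) z)| ≤
        (((n + 1) * h⁻¹ ^ 2) ^ j * C) * h⁻¹ ^ 2 * (Real.sqrt (dot v v) * |v.2|) +
          3 * (((n + 1) * h⁻¹ ^ 2) ^ j * C) * (h * δ)⁻¹ * dot v v) ∧
      (∀ v z, |dot v (lap (rot i (sbj Γ hδ hh j)) z)| ≤
        (n + 1) ^ 2 * (((n + 1) * h⁻¹ ^ 2) ^ j * C) * h⁻¹ ^ 3 * Real.sqrt (dot v v)) ∧
      (∀ z, |pd ey (sbj Γ hδ hh j) z| ≤ (((n + 1) * h⁻¹ ^ 2) ^ j * C) * h⁻¹) ∧
      (∀ z, |pd (ex i) (sbj Γ hδ hh j) z| ≤ (((n + 1) * h⁻¹ ^ 2) ^ j * C) * δ⁻¹) ∧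
      (∀ z, |lap (sbj Γ hδ hh j) z| ≤
        (n + 1) * ((((n + 1) * h⁻¹ ^ 2) ^ j * C) * h⁻¹ ^ 2)) := by
  obtain ⟨C, hC1, hC⟩ := cb_bound n m
  refine ⟨C, hC1, fun Γ hΓ {δ h} hδ hh hhδ i j hj => ?_⟩
  have hC0 : 0 ≤ C := le_trans zero_le_one hC1
  have h1 : Bd (3 + 2 * j) C (cb Γ) :=
    ⟨cb_contDiff hΓ.smooth, fun z k hk => hC Γ hΓ z k (by omega)⟩
  have h2 := Bd.iter hC0 hδ hh hhδ j 3 h1
  exact gen_bounds (by positivity) h2 hδ hh hhδ i rfl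

end Pool.Agent.W5h42.KF
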